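import Pool.Agent.H27.BN.Build

set_option autoImplicit false

/-!
# The bounds
-/

namespace Pool.Agent.H27.BN

open Pool.Agent.H48.BN

theorem fin_bound {M X K N j : ℕ} (hN : N = 4 * j + 3) (hX : 0 < X) (hM : M = X ^ 2)
    (h : M ^ (3 * (j + 1)) ≤ K ^ N) : X ^ 3 ≤ K ^ 2 := by
  have h1 := cube_le hN (by rw [hM]; exact pow_pos hX 2) h
  have h2 : (X ^ 3) ^ 2 ≤ (K ^ 2) ^ 2 := by
    calc (X ^ 3) ^ 2 = M ^ 3 := by rw [hM]; ring
      _ ≤ K ^ 4 := h1
      _ = (K ^ 2) ^ 2 := by ring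
  exact le_of_pow_le_pow_left₀ (by norm_num) (Nat.zero_le _) h2

theorem half_split {α u₁ D N : ℕ} (h : 2 * α = u₁ * D) (hf : Free N u₁) :
    ∃ α₁ D', α = α₁ * D' ∧ D' ≤ D ∧ Free N α₁ := by
  have h2 : 2 ∣ u₁ * D := ⟨α, h.symm⟩
  rcases (Nat.prime_two.dvd_mul).1 h2 with ⟨c, hc⟩ | ⟨c, hc⟩
  · refine ⟨c, D, ?_, le_rfl, hf.of_dvd ⟨2, by rw [hc]; ring⟩⟩
    have : 2 * α = 2 * (c * D) := by rw [h, hc]; ring
    omega
  · refine ⟨u₁, c, ?_, by omega, hf⟩
    have : 2 * α = 2 * (u₁ * c) := by rw [h, hc]; ring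
    omega

theorem K_mono {N m j D' D : ℕ} (h : D' ≤ D) :
    (N * (m * 4 ^ j * D' ^ 2)) ^ 2 ≤ (N * (m * 4 ^ j * D ^ 2)) ^ 2 :=
  Nat.pow_le_pow_left (Nat.mul_le_mul_left N (Nat.mul_le_mul_left _ (Nat.pow_le_pow_left h 2))) 2

/-- odd `z`, all primes of `m` divide `a` -/
theorem bound_odd {m N j z a b Ta Tb u₁ D X : ℕ} (h : Cfg m N j z 1 (4 ^ j) a b a b Ta Tb)
    (hX : X = max a b) (hao : Odd a) (hr : ∀ p, p.Prime → p ∣ m → p ∣ a)
    (hD : a = u₁ * D) (hf : Free N u₁) : X ^ 3 ≤ 8 * (N * (m * 4 ^ j * D ^ 2)) ^ 2 := by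
  have hXp : 0 < X := by rw [hX]; exact lt_of_lt_of_le h.αpos (le_max_left _ _)
  have hco : Nat.Coprime a (4 ^ j) := by
    have : Nat.Coprime a 4 := by
      have h2 : Nat.Coprime a (2 ^ 2) := Nat.Coprime.pow_right 2 hao.coprime_two_right
      exact h2
    exact Nat.Coprime.pow_right j this
  have h1 := h.boundII hr hco hD hf
  have hmax : max (a ^ 2) (b ^ 2) = X ^ 2 := by
    rw [hX]
    rcases le_total a b with h2 | h2
    · rw [max_eq_right h2, max_eq_right (Nat.pow_le_pow_left h2 2)]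
    · rw [max_eq_left h2, max_eq_left (Nat.pow_le_pow_left h2 2)]
  rw [hmax] at h1
  have h3 : (X ^ 2) ^ (3 * (j + 1)) ≤ (N * (m * 4 ^ j * D ^ 2)) ^ N :=
    le_trans (Nat.le_mul_of_pos_left _ (by positivity)) h1
  have h4 := fin_bound h.hN hXp rfl h3
  omega

/-- even `z`, all primes of `m` divide `a`, `a / 2` odd -/
theorem bound_even {m N j z a b α β Ta Tb u₁ D X : ℕ} (h : Cfg m N j z 2 1 a b α β Ta Tb)
    (hX : X = max a b) (hr : ∀ p, p.Prime → p ∣ m → p ∣ a)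
    (hD : a = u₁ * D) (hf : Free N u₁) : X ^ 3 ≤ 8 * (N * (m * 4 ^ j * D ^ 2)) ^ 2 := by
  have hXp : 0 < max α β := lt_of_lt_of_le h.αpos (le_max_left _ _)
  obtain ⟨α₁, D', h1, h2, h3⟩ := half_split (α := α) (by rw [← h.ha]; exact hD) hf
  have h4 := h.boundII hr (Nat.coprime_one_right α) h1 h3
  have hmax : max (α ^ 2) (β ^ 2) = (max α β) ^ 2 := by
    rcases le_total α β with h2 | h2
    · rw [max_eq_right h2, max_eq_right (Nat.pow_le_pow_left h2 2)]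
    · rw [max_eq_left h2, max_eq_left (Nat.pow_le_pow_left h2 2)]
  rw [hmax, one_mul] at h4
  have h5 := fin_bound h.hN hXp rfl h4
  have h6 := K_mono (N := N) (m := m) (j := j) h2
  have h7 : X = 2 * max α β := by rw [hX, h.ha, h.hb, Nat.mul_max_mul_left]
  have h8 : X ^ 3 = 8 * (max α β) ^ 3 := by rw [h7]; ring
  rw [h8]
  omega

/-- even `z`, `a / 2` odd, `a` coprime to `m`: the bound for `b` -/
theorem bound_even' {m N j z a b α β Ta Tb u₁ D X : ℕ} (h : Cfg m N j z 2 1 a b α β Ta Tb)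
    (hX : X = max a b) (hα : Odd α) (hc : Nat.Coprime a m)
    (hD : b = u₁ * D) (hf : Free N u₁) : X ^ 3 ≤ 8 * (N * (m * 4 ^ j * D ^ 2)) ^ 2 := by
  have hXp : 0 < max α β := lt_of_lt_of_le h.αpos (le_max_left _ _)
  obtain ⟨β₁, D', h1, h2, h3⟩ := half_split (α := β) (by rw [← h.hb]; exact hD) hf
  have h4 := h.boundI hα hc h1 h3
  have hmax : max (α ^ 2) (β ^ 2) = (max α β) ^ 2 := by
    rcases le_total α β with h2 | h2
    · rw [max_eq_right h2, max_eq_right (Nat.pow_le_pow_left h2 2)]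
    · rw [max_eq_left h2, max_eq_left (Nat.pow_le_pow_left h2 2)]
  rw [hmax] at h4
  have h5 := fin_bound h.hN hXp rfl h4
  have h6 : (N * (4 ^ j * D' ^ 2)) ^ 2 ≤ (N * (m * 4 ^ j * D ^ 2)) ^ 2 := by
    refine Nat.pow_le_pow_left (Nat.mul_le_mul_left N ?_) 2
    refine Nat.mul_le_mul ?_ (Nat.pow_le_pow_left h2 2)
    exact Nat.le_mul_of_pos_left _ h.mpos
  have h7 : X = 2 * max α β := by rw [hX, h.ha, h.hb, Nat.mul_max_mul_left]
  have h8 : X ^ 3 = 8 * (max α β) ^ 3 := by rw [h7]; ring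
  rw [h8]
  omega

/-- odd `z`: `x + y` coprime to `m` -/
theorem bound_plus {m N j z x y Ta Tb x₁ y₁ D₁ D₂ : ℕ} (hy : 0 < y) (hxy : y < x)
    (hc : Nat.Coprime x y) (q : Quot m x y Ta Tb)
    (h : Cfg m N j z 1 (4 ^ j) (x + y) (x - y) (x + y) (x - y) Ta Tb)
    (hao : Odd (x + y)) (hcm : Nat.Coprime (x + y) m)
    (hx₁ : x = x₁ * D₁) (hy₁ : y = y₁ * D₂) (hf₁ : Free N x₁) (hf₂ : Free N y₁) :
    (x + y) ^ 3 ≤ (N * (m * (D₁ * D₂))) ^ 2 := by
  have hN0 : N ≠ 0 := by have := h.hN; omega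
  have hm := h.hm
  obtain ⟨B, hB⟩ := h.pow_Ta hcm
  have hcTa := h.cop_Ta hcm
  have hab : Nat.Coprime (x + y) (x - y) := by
    rw [Nat.coprime_iff_gcd_eq_one]
    by_contra hne
    obtain ⟨p, hp, hpd⟩ := Nat.exists_prime_and_dvd hne
    have h1 : p ∣ x + y := hpd.trans (Nat.gcd_dvd_left _ _)
    have h3 := h.gcdab p hp h1 (hpd.trans (Nat.gcd_dvd_right _ _))
    subst h3
    exact (Nat.not_even_iff_odd.2 hao) (even_iff_two_dvd.2 h1)
  have haTb : Nat.Coprime (x + y) Tb :=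
    (Nat.Coprime.coprime_dvd_right (Dvd.intro _ rfl) h.copb).symm
  have h1 : Nat.Coprime (x + y) (Ta * ((x - y) * Tb)) :=
    Nat.Coprime.mul_right hcTa.symm (Nat.Coprime.mul_right hab haTb)
  obtain ⟨c, hcα⟩ := nat_pow_of_mul (c := z) (k := N) h1 (by rw [← h.prod]; ring)
  obtain ⟨R, hR⟩ := exists_R x y j
  have hx : 0 < x := by omega
  obtain ⟨hR0, hRb⟩ := R_bounds h.hj hx hy hR
  rw [← hm, q.hTa] at hR
  have h2 : (x + y) ^ (2 * j) = B ^ N + x * y * R := by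
    have h3 : (x + y) * (x + y) ^ (2 * j) = (x + y) * (B ^ N + x * y * R) := by
      have e1 : (x + y) * (x + y) ^ (2 * j) = (x + y) ^ m := by rw [hm]; ring
      rw [e1, hR, hB]; ring
    exact Nat.eq_of_mul_eq_mul_left (by omega) h3
  have h3 : (x + y) ^ (2 * j) = (c ^ (2 * j)) ^ N := by
    rw [hcα, ← pow_mul, ← pow_mul, mul_comm N]
  have hxyc : Nat.Coprime (x * y) (x + y) := by
    apply Nat.Coprime.mul_left
    · rw [Nat.coprime_self_add_right]; exact hc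
    · rw [Nat.coprime_add_self_right]; exact hc.symm
  have hcE : Nat.Coprime (x * y) (c ^ (2 * j)) := by
    rw [hcα] at hxyc
    exact Nat.Coprime.pow_right _ (Nat.Coprime.coprime_dvd_right (dvd_pow_self c hN0) hxyc)
  have hcF : Nat.Coprime (x * y) B := by
    have h4 : Nat.Coprime (x * y) (x ^ m + y ^ m) := by
      have hm0 : m ≠ 0 := by omega
      rw [Nat.coprime_iff_gcd_eq_one]
      by_contra hne
      obtain ⟨p, hp, hpd⟩ := Nat.exists_prime_and_dvd hne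
      have h5 : p ∣ x * y := hpd.trans (Nat.gcd_dvd_left _ _)
      have h6 : p ∣ x ^ m + y ^ m := hpd.trans (Nat.gcd_dvd_right _ _)
      have h7 : p ∣ Nat.gcd x y := by
        rcases (hp.dvd_mul).1 h5 with h8 | h8
        · exact Nat.dvd_gcd h8 (hp.dvd_of_dvd_pow ((Nat.dvd_add_right (dvd_pow h8 hm0)).1 h6))
        · exact Nat.dvd_gcd (hp.dvd_of_dvd_pow ((Nat.dvd_add_left (dvd_pow h8 hm0)).1 h6)) h8
      rw [hc] at h7
      exact hp.one_lt.ne' (Nat.dvd_one.1 h7)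
    rw [q.hTa, hB] at h4
    exact Nat.Coprime.coprime_dvd_right ((dvd_pow_self B hN0).mul_left _) h4
  have h4 := caseIII (s := x + y) h.hj h.hN hx hy (by omega) (by rw [← h3]; exact h2) hR0 hRb
    (by rw [← h3, ← pow_mul]) hcE hcF hx₁ hy₁ hf₁ hf₂
  rw [← hm] at h4
  exact fin_bound h.hN (by omega) rfl h4

/-- odd `z`: `x - y` coprime to `m` -/
theorem bound_minus {m N j z x y Ta Tb x₁ y₁ D₁ D₂ : ℕ} (hy : 0 < y) (hxy : y < x)
    (hc : Nat.Coprime x y) (q : Quot m x y Ta Tb)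
    (h : Cfg m N j z 1 (4 ^ j) (x + y) (x - y) (x + y) (x - y) Ta Tb)
    (hbo : Odd (x - y)) (hcm : Nat.Coprime (x - y) m)
    (hx₁ : x = x₁ * D₁) (hy₁ : y = y₁ * D₂) (hf₁ : Free N x₁) (hf₂ : Free N y₁) :
    x ^ 3 ≤ (N * (m * (D₁ * D₂))) ^ 2 := by
  have hN0 : N ≠ 0 := by have := h.hN; omega
  have hm := h.hm
  have hlt : y ^ m < x ^ m := Nat.pow_lt_pow_left hxy (by omega)
  obtain ⟨A, hA⟩ := h.swap.pow_Ta hcm
  have hcTb := h.swap.cop_Ta hcm
  have hab : Nat.Coprime (x - y) (x + y) := by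
    rw [Nat.coprime_iff_gcd_eq_one]
    by_contra hne
    obtain ⟨p, hp, hpd⟩ := Nat.exists_prime_and_dvd hne
    have h1 : p ∣ x - y := hpd.trans (Nat.gcd_dvd_left _ _)
    have h3 := h.gcdab p hp (hpd.trans (Nat.gcd_dvd_right _ _)) h1
    subst h3
    exact (Nat.not_even_iff_odd.2 hbo) (even_iff_two_dvd.2 h1)
  have hbTa : Nat.Coprime (x - y) Ta :=
    (Nat.Coprime.coprime_dvd_right (Dvd.intro _ rfl) h.copa).symm
  have h1 : Nat.Coprime (x - y) (Tb * ((x + y) * Ta)) :=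
    Nat.Coprime.mul_right hcTb.symm (Nat.Coprime.mul_right hab hbTa)
  obtain ⟨c, hcβ⟩ := nat_pow_of_mul (c := z) (k := N) h1 (by rw [← h.prod]; ring)
  obtain ⟨R, hR⟩ := exists_R y (x - y) j
  have hx : 0 < x := by omega
  have hb : 0 < x - y := by omega
  obtain ⟨hR0, hRb⟩ := R_bounds h.hj hy hb hR
  have hxe : y + (x - y) = x := by omega
  rw [hxe] at hR hRb
  rw [← hm] at hR
  have hTb : (x - y) * Tb = (x - y) ^ m + y * (x - y) * x * R := by
    rw [← q.hTb]; omega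
  have h2 : A ^ N = (x - y) ^ (2 * j) + x * y * R := by
    have h3 : (x - y) * A ^ N = (x - y) * ((x - y) ^ (2 * j) + x * y * R) := by
      have e1 : (x - y) ^ m = (x - y) * (x - y) ^ (2 * j) := by rw [hm]; ring
      rw [← hA, hTb, e1]; ring
    exact Nat.eq_of_mul_eq_mul_left hb h3
  have h3 : (x - y) ^ (2 * j) = (c ^ (2 * j)) ^ N := by
    rw [hcβ, ← pow_mul, ← pow_mul, mul_comm N]
  have hxyc : Nat.Coprime (x * y) (x - y) := by
    apply Nat.Coprime.mul_left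
    · rw [Nat.coprime_self_sub_right hxy.le]; exact hc
    · rw [Nat.coprime_sub_self_right hxy.le]; exact hc.symm
  have hcE : Nat.Coprime (x * y) (c ^ (2 * j)) := by
    rw [hcβ] at hxyc
    exact Nat.Coprime.pow_right _ (Nat.Coprime.coprime_dvd_right (dvd_pow_self c hN0) hxyc)
  have hcF : Nat.Coprime (x * y) A := by
    have h4 : Nat.Coprime (x * y) (x ^ m - y ^ m) := by
      have hm0 : m ≠ 0 := by omega
      rw [Nat.coprime_iff_gcd_eq_one]
      by_contra hne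
      obtain ⟨p, hp, hpd⟩ := Nat.exists_prime_and_dvd hne
      have h5 : p ∣ x * y := hpd.trans (Nat.gcd_dvd_left _ _)
      have h6 : p ∣ x ^ m - y ^ m := hpd.trans (Nat.gcd_dvd_right _ _)
      have h7 : p ∣ Nat.gcd x y := by
        rcases (hp.dvd_mul).1 h5 with h8 | h8
        · exact Nat.dvd_gcd h8 (hp.dvd_of_dvd_pow
            ((Nat.dvd_sub_iff_right hlt.le (dvd_pow h8 hm0)).1 h6))
        · exact Nat.dvd_gcd (hp.dvd_of_dvd_pow
            ((Nat.dvd_sub_iff_left hlt.le (dvd_pow h8 hm0)).1 h6)) h8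
      rw [hc] at h7
      exact hp.one_lt.ne' (Nat.dvd_one.1 h7)
    rw [q.hTb, hA] at h4
    exact Nat.Coprime.coprime_dvd_right ((dvd_pow_self A hN0).mul_left _) h4
  have hE : (x ^ 2) ^ j ≤ A ^ N := by
    have h5 : (x - y) * (x ^ 2) ^ j ≤ (x - y) * A ^ N := by
      rw [← hA, ← q.hTb, ← pow_mul, Nat.sub_mul]
      have e1 : x * x ^ (2 * j) = x ^ m := by rw [hm]; ring
      have e2 : y ^ m ≤ y * x ^ (2 * j) := by
        rw [hm, pow_succ, mul_comm]
        exact Nat.mul_le_mul_left y (Nat.pow_le_pow_left hxy.le _)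
      rw [e1]
      omega
    exact Nat.le_of_mul_le_mul_left h5 hb
  have h4 := caseIII (s := x) h.hj h.hN hx hy hx (by rw [← h3]; exact h2) hR0 hRb hE
    hcF hcE hx₁ hy₁ hf₁ hf₂
  rw [← hm] at h4
  exact fin_bound h.hN hx rfl h4

end Pool.Agent.H27.BN
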