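import Pool.Agent.H27.BN.Cfg

set_option autoImplicit false

/-!
# Construction of the configurations
-/

namespace Pool.Agent.H27.BN

open Pool.Agent.H48.BN

theorem prime_eq_two {x y m p : ℕ} (hp : p.Prime) (hc : Nat.Coprime x y) (hxy : y ≤ x)
    (h1 : p ∣ x ^ m + y ^ m) (h2 : p ∣ x ^ m - y ^ m) : p = 2 := by
  by_contra hp2
  have hle : y ^ m ≤ x ^ m := Nat.pow_le_pow_left hxy m
  have h3 : p ∣ 2 * x ^ m := by
    have : 2 * x ^ m = (x ^ m + y ^ m) + (x ^ m - y ^ m) := by omega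
    rw [this]; exact dvd_add h1 h2
  have h4 : p ∣ x ^ m := by
    rcases (hp.dvd_mul).1 h3 with h | h
    · exact absurd ((Nat.prime_dvd_prime_iff_eq hp Nat.prime_two).1 h) hp2
    · exact h
  have h5 : p ∣ y ^ m := (Nat.dvd_add_right h4).1 h1
  have h6 : p ∣ Nat.gcd x y := Nat.dvd_gcd (hp.dvd_of_dvd_pow h4) (hp.dvd_of_dvd_pow h5)
  rw [hc] at h6
  exact hp.one_lt.ne' (Nat.dvd_one.1 h6)

/-- the quotients -/
structure Quot (m x y Ta Tb : ℕ) : Prop where
  Tapos : 0 < Ta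
  Tbpos : 0 < Tb
  hTa : x ^ m + y ^ m = (x + y) * Ta
  hTb : x ^ m - y ^ m = (x - y) * Tb
  vala : ∀ p, p.Prime → p ∣ x + y → Ta.factorization p = m.factorization p
  valb : ∀ p, p.Prime → p ∣ x - y → Tb.factorization p = m.factorization p
  odda : ¬ 2 ∣ Ta
  oddb : ¬ 2 ∣ Tb

theorem quot_exists {x y m : ℕ} (hm : Odd m) (hy : 0 < y) (hxy : y < x) (hc : Nat.Coprime x y) :
    ∃ Ta Tb, Quot m x y Ta Tb := by
  have hx : 0 < x := by omega
  have hm0 : m ≠ 0 := by rintro rfl; exact absurd hm (by decide)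
  have hlt : y ^ m < x ^ m := Nat.pow_lt_pow_left hxy hm0
  have hm2 : m.factorization 2 = 0 := odd_fact_two hm
  obtain ⟨Ta, hTa0, hTa, -, -⟩ := (side_plus hm hx hy hc).quot
  obtain ⟨Tb, hTb0, hTb, -, -⟩ := (side_minus hm hy hxy hc).quot
  have va := (side_plus hm hx hy hc).val
  have vb := (side_minus hm hy hxy hc).val
  have vala : ∀ p, p.Prime → p ∣ x + y → Ta.factorization p = m.factorization p := by
    intro p hp h
    have h1 := va p hp h
    rw [hTa, Nat.factorization_mul (by omega) hTa0.ne', Finsupp.add_apply] at h1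
    omega
  have valb : ∀ p, p.Prime → p ∣ x - y → Tb.factorization p = m.factorization p := by
    intro p hp h
    have h1 := vb p hp h
    rw [hTb, Nat.factorization_mul (by omega) hTb0.ne', Finsupp.add_apply] at h1
    omega
  refine ⟨Ta, Tb, hTa0, hTb0, hTa, hTb, vala, valb, ?_, ?_⟩
  · intro h2
    by_cases h : 2 ∣ x + y
    · have h3 := vala 2 Nat.prime_two h
      rw [hm2] at h3
      have h4 := (Nat.prime_two.dvd_iff_one_le_factorization hTa0.ne').1 h2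
      omega
    · have h3 : 2 ∣ x ^ m + y ^ m := by rw [hTa]; exact h2.mul_left _
      have h4 : Odd (x + y) := by
        rw [← Nat.not_even_iff_odd, even_iff_two_dvd]; exact h
      have h5 : Odd (x ^ m + y ^ m) := by
        rw [Nat.odd_add] at h4 ⊢
        rw [Nat.odd_pow_iff hm0, Nat.even_pow' hm0]
        exact h4
      exact (Nat.not_even_iff_odd.2 h5) (even_iff_two_dvd.2 h3)
  · intro h2
    by_cases h : 2 ∣ x - y
    · have h3 := valb 2 Nat.prime_two h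
      rw [hm2] at h3
      have h4 := (Nat.prime_two.dvd_iff_one_le_factorization hTb0.ne').1 h2
      omega
    · have h3 : 2 ∣ x ^ m - y ^ m := by rw [hTb]; exact h2.mul_left _
      have h4 : Odd (x - y) := by
        rw [← Nat.not_even_iff_odd, even_iff_two_dvd]; exact h
      have h5 : Odd (x ^ m - y ^ m) := by
        rw [Nat.odd_sub hlt.le, Nat.odd_pow_iff hm0, Nat.even_pow' hm0]
        rw [Nat.odd_sub hxy.le] at h4
        exact h4
      exact (Nat.not_even_iff_odd.2 h5) (even_iff_two_dvd.2 h3)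

theorem cfg_of {x y z m N j e g α β Ta Tb : ℕ} (hj : 1 ≤ j) (hm : m = 2 * j + 1)
    (hN : N = 4 * j + 3) (hy : 0 < y) (hxy : y < x) (hc : Nat.Coprime x y)
    (h : x ^ (2 * m) = y ^ (2 * m) + z ^ N) (q : Quot m x y Ta Tb) (he : 0 < e)
    (ha : x + y = e * α) (hb : x - y = e * β)
    (hP : g * Ta = (PN (α ^ 2) (β ^ 2) j).1) (hQ : g * Tb = (PN (α ^ 2) (β ^ 2) j).2) :
    Cfg m N j z e g (x + y) (x - y) α β Ta Tb := by
  have h1 : ∀ p, p.Prime → p ∣ (x + y) * Ta → p ∣ (x - y) * Tb → p = 2 := by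
    intro p hp h2 h3
    rw [← q.hTa] at h2
    rw [← q.hTb] at h3
    exact prime_eq_two hp hc hxy.le h2 h3
  refine ⟨hj, hm, hN, ?_, ?_, he, ha, hb, hP, hQ, ?_, ?_, ?_, q.vala, q.valb, ?_, q.Tapos, q.Tbpos⟩
  · rcases Nat.eq_zero_or_pos α with h0 | h0
    · rw [h0, mul_zero] at ha; omega
    · exact h0
  · rcases Nat.eq_zero_or_pos β with h0 | h0
    · rw [h0, mul_zero] at hb; omega
    · exact h0
  · rw [← q.hTa, ← q.hTb]
    exact prod_eq hxy h
  · rw [Nat.coprime_iff_gcd_eq_one]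
    by_contra hne
    obtain ⟨p, hp, hpd⟩ := Nat.exists_prime_and_dvd hne
    have h2 : p ∣ Ta := hpd.trans (Nat.gcd_dvd_left _ _)
    have h3 := h1 p hp (h2.mul_left _) (hpd.trans (Nat.gcd_dvd_right _ _))
    subst h3
    exact q.odda h2
  · rw [Nat.coprime_iff_gcd_eq_one]
    by_contra hne
    obtain ⟨p, hp, hpd⟩ := Nat.exists_prime_and_dvd hne
    have h2 : p ∣ Tb := hpd.trans (Nat.gcd_dvd_left _ _)
    have h3 := h1 p hp (hpd.trans (Nat.gcd_dvd_right _ _)) (h2.mul_left _)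
    subst h3
    exact q.oddb h2
  · intro p hp h2 h3
    exact h1 p hp (h2.mul_right _) (h3.mul_right _)

theorem cfg_odd {x y z m N j Ta Tb : ℕ} (hj : 1 ≤ j) (hm : m = 2 * j + 1)
    (hN : N = 4 * j + 3) (hy : 0 < y) (hxy : y < x) (hc : Nat.Coprime x y)
    (h : x ^ (2 * m) = y ^ (2 * m) + z ^ N) (q : Quot m x y Ta Tb) :
    Cfg m N j z 1 (4 ^ j) (x + y) (x - y) (x + y) (x - y) Ta Tb := by
  have hlt : y ^ m < x ^ m := Nat.pow_lt_pow_left hxy (by omega)
  obtain ⟨h1, h2⟩ := pow_PN (x := 2 * x) (y := 2 * y) (α := x + y) (β := x - y) (by omega)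
    (by omega) j
  rw [← hm, mul_pow, mul_pow] at h1 h2
  have e2 : 2 ^ m = 2 * 4 ^ j := by
    rw [hm, pow_succ, pow_mul]; norm_num; ring
  refine cfg_of hj hm hN hy hxy hc h q one_pos (by ring) (by ring) ?_ ?_
  · have h3 : 2 * (x + y) * (4 ^ j * Ta) = 2 * (x + y) * (PN ((x + y) ^ 2) ((x - y) ^ 2) j).1 := by
      rw [mul_assoc 2 (x + y) (PN _ _ j).1, ← h1, ← mul_add, q.hTa, e2]; ring
    exact Nat.eq_of_mul_eq_mul_left (by omega) h3
  · have h3 : 2 * (x - y) * (4 ^ j * Tb) = 2 * (x - y) * (PN ((x + y) ^ 2) ((x - y) ^ 2) j).2 := by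
      have h4 : 2 ^ m * x ^ m = 2 ^ m * y ^ m + 2 ^ m * (x ^ m - y ^ m) := by
        rw [← mul_add]; congr 1; omega
      have h5 : 2 ^ m * (x ^ m - y ^ m) =
          2 * ((x - y) * (PN ((x + y) ^ 2) ((x - y) ^ 2) j).2) := by omega
      rw [mul_assoc 2 (x - y) (PN _ _ j).2, ← h5, q.hTb, e2]; ring
    exact Nat.eq_of_mul_eq_mul_left (by omega) h3

theorem cfg_even {x y z m N j Ta Tb α β : ℕ} (hj : 1 ≤ j) (hm : m = 2 * j + 1)
    (hN : N = 4 * j + 3) (hy : 0 < y) (hxy : y < x) (hc : Nat.Coprime x y)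
    (h : x ^ (2 * m) = y ^ (2 * m) + z ^ N) (q : Quot m x y Ta Tb)
    (ha : x + y = 2 * α) (hb : x - y = 2 * β) :
    Cfg m N j z 2 1 (x + y) (x - y) α β Ta Tb := by
  have hlt : y ^ m < x ^ m := Nat.pow_lt_pow_left hxy (by omega)
  obtain ⟨h1, h2⟩ := pow_PN (x := x) (y := y) (α := α) (β := β) (by omega) (by omega) j
  rw [← hm] at h1 h2
  refine cfg_of hj hm hN hy hxy hc h q two_pos ha hb ?_ ?_
  · have h3 : (x + y) * (1 * Ta) = (x + y) * (PN (α ^ 2) (β ^ 2) j).1 := by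
      rw [one_mul, ← q.hTa, h1, ha]; ring
    exact Nat.eq_of_mul_eq_mul_left (by omega) h3
  · have h3 : (x - y) * (1 * Tb) = (x - y) * (PN (α ^ 2) (β ^ 2) j).2 := by
      rw [one_mul, ← q.hTb, hb]
      have : x ^ m - y ^ m = 2 * (β * (PN (α ^ 2) (β ^ 2) j).2) := by omega
      rw [this]; ring
    exact Nat.eq_of_mul_eq_mul_left (by omega) h3

end Pool.Agent.H27.BN
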