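import Pool.Agent.H27.BN.Core
import Pool.Agent.H48.BN.Split

set_option autoImplicit false

/-!
# The two factorizations attached to a primitive solution
-/

namespace Pool.Agent.H27.BN

open Pool.Agent.H48.BN

/-- `a`, `b` are `x + y`, `x - y` in some order, `a Ta`, `b Tb` are `x ^ m ± y ^ m`, `a = e α`, `b = e β` -/
structure Cfg (m N j z e g a b α β Ta Tb : ℕ) : Prop where
  hj : 1 ≤ j
  hm : m = 2 * j + 1
  hN : N = 4 * j + 3
  αpos : 0 < α
  βpos : 0 < β
  epos : 0 < e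
  ha : a = e * α
  hb : b = e * β
  hP : g * Ta = (PN (α ^ 2) (β ^ 2) j).1
  hQ : g * Tb = (PN (α ^ 2) (β ^ 2) j).2
  prod : (a * Ta) * (b * Tb) = z ^ N
  copa : Nat.Coprime Ta (b * Tb)
  copb : Nat.Coprime Tb (a * Ta)
  vala : ∀ p, p.Prime → p ∣ a → Ta.factorization p = m.factorization p
  valb : ∀ p, p.Prime → p ∣ b → Tb.factorization p = m.factorization p
  gcdab : ∀ p, p.Prime → p ∣ a → p ∣ b → p = 2
  Tapos : 0 < Ta
  Tbpos : 0 < Tb

theorem Cfg.swap {m N j z e g a b α β Ta Tb : ℕ} (h : Cfg m N j z e g a b α β Ta Tb) :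
    Cfg m N j z e g b a β α Tb Ta where
  hj := h.hj
  hm := h.hm
  hN := h.hN
  αpos := h.βpos
  βpos := h.αpos
  epos := h.epos
  ha := h.hb
  hb := h.ha
  hP := by rw [PN_swap, h.hQ]
  hQ := by rw [PN_swap, h.hP]
  prod := by rw [mul_comm, h.prod]
  copa := h.copb
  copb := h.copa
  vala := h.valb
  valb := h.vala
  gcdab := fun p hp h1 h2 => h.gcdab p hp h2 h1
  Tapos := h.Tbpos
  Tbpos := h.Tapos

section

variable {m N j z e g a b α β Ta Tb : ℕ}

theorem Cfg.apos (h : Cfg m N j z e g a b α β Ta Tb) : 0 < a := by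
  rw [h.ha]; exact Nat.mul_pos h.epos h.αpos

theorem Cfg.mpos (h : Cfg m N j z e g a b α β Ta Tb) : 0 < m := by
  have := h.hm; omega

theorem Cfg.hmo (h : Cfg m N j z e g a b α β Ta Tb) : Odd m := ⟨j, h.hm⟩

/-- if `a` is coprime to `m` then `Ta` is an `N`-th power coprime to `a` -/
theorem Cfg.cop_Ta (h : Cfg m N j z e g a b α β Ta Tb) (hc : Nat.Coprime a m) :
    Nat.Coprime Ta a := by
  rw [Nat.coprime_iff_gcd_eq_one]
  by_contra hne
  obtain ⟨p, hp, hpd⟩ := Nat.exists_prime_and_dvd hne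
  have h1 : p ∣ Ta := hpd.trans (Nat.gcd_dvd_left _ _)
  have h2 : p ∣ a := hpd.trans (Nat.gcd_dvd_right _ _)
  have h3 := h.vala p hp h2
  have h4 : ¬ p ∣ m := fun h5 => by
    have := Nat.dvd_gcd h2 h5
    rw [hc] at this
    exact hp.one_lt.ne' (Nat.dvd_one.1 this)
  rw [Nat.factorization_eq_zero_of_not_dvd h4] at h3
  have h5 := (hp.dvd_iff_one_le_factorization h.Tapos.ne').1 h1
  omega

theorem Cfg.pow_Ta (h : Cfg m N j z e g a b α β Ta Tb) (hc : Nat.Coprime a m) :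
    ∃ B, Ta = B ^ N := by
  have h1 : Nat.Coprime Ta (a * (b * Tb)) := Nat.Coprime.mul_right (h.cop_Ta hc) h.copa
  exact nat_pow_of_mul h1 (by rw [← h.prod]; ring)

/-- if all primes of `m` divide `a` then `b` is coprime to `m` -/
theorem Cfg.cop_bm (h : Cfg m N j z e g a b α β Ta Tb) (hr : ∀ p, p.Prime → p ∣ m → p ∣ a) :
    Nat.Coprime b m := by
  rw [Nat.coprime_iff_gcd_eq_one]
  by_contra hne
  obtain ⟨p, hp, hpd⟩ := Nat.exists_prime_and_dvd hne
  have h1 : p ∣ b := hpd.trans (Nat.gcd_dvd_left _ _)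
  have h2 : p ∣ m := hpd.trans (Nat.gcd_dvd_right _ _)
  have h3 := h.gcdab p hp (hr p hp h2) h1
  subst h3
  exact (Nat.not_even_iff_odd.2 h.hmo) (even_iff_two_dvd.2 h2)

theorem Cfg.Ta_eq (h : Cfg m N j z e g a b α β Ta Tb) (hr : ∀ p, p.Prime → p ∣ m → p ∣ a) :
    ∃ B, Ta = m * B ^ N ∧ Nat.Coprime a B := by
  have hm0 := h.mpos
  have hdvd : m ∣ Ta := by
    rw [← Nat.factorization_prime_le_iff_dvd hm0.ne' h.Tapos.ne']
    intro p hp
    by_cases hpm : p ∣ m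
    · rw [h.vala p hp (hr p hp hpm)]
    · rw [Nat.factorization_eq_zero_of_not_dvd hpm]
      exact Nat.zero_le _
  obtain ⟨T, hT⟩ := hdvd
  have hT0 : T ≠ 0 := by
    rintro rfl
    have := h.Tapos
    rw [hT] at this
    simp at this
  have key : ∀ p, p.Prime → p ∣ a → ¬ p ∣ T := by
    intro p hp hpa hpT
    have h1 := h.vala p hp hpa
    rw [hT, Nat.factorization_mul hm0.ne' hT0, Finsupp.add_apply] at h1
    have h2 := (hp.dvd_iff_one_le_factorization hT0).1 hpT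
    omega
  have hca : Nat.Coprime T a := by
    rw [Nat.coprime_iff_gcd_eq_one]
    by_contra hne
    obtain ⟨p, hp, hpd⟩ := Nat.exists_prime_and_dvd hne
    exact key p hp (hpd.trans (Nat.gcd_dvd_right _ _)) (hpd.trans (Nat.gcd_dvd_left _ _))
  have hcm : Nat.Coprime T m := by
    rw [Nat.coprime_iff_gcd_eq_one]
    by_contra hne
    obtain ⟨p, hp, hpd⟩ := Nat.exists_prime_and_dvd hne
    exact key p hp (hr p hp (hpd.trans (Nat.gcd_dvd_right _ _))) (hpd.trans (Nat.gcd_dvd_left _ _))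
  have hcb : Nat.Coprime T (b * Tb) :=
    Nat.Coprime.coprime_dvd_left ⟨m, by rw [hT]; ring⟩ h.copa
  have h1 : Nat.Coprime T (m * (a * (b * Tb))) :=
    Nat.Coprime.mul_right hcm (Nat.Coprime.mul_right hca hcb)
  obtain ⟨B, hB⟩ := nat_pow_of_mul (c := z) (k := N) h1 (by rw [← h.prod, hT]; ring)
  refine ⟨B, by rw [hT, hB], ?_⟩
  rw [hB] at hca
  have hN0 : 0 < N := by have := h.hN; omega
  exact (Nat.Coprime.coprime_dvd_left (dvd_pow_self B hN0.ne') hca).symm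

/-- all primes of `m` divide `a` -/
theorem Cfg.boundII (h : Cfg m N j z e g a b α β Ta Tb) (hr : ∀ p, p.Prime → p ∣ m → p ∣ a)
    (hαg : Nat.Coprime α g) {α₁ D : ℕ} (hD : α = α₁ * D) (hf : Free N α₁) :
    g * max (α ^ 2) (β ^ 2) ^ (3 * (j + 1)) ≤ (N * (m * 4 ^ j * D ^ 2)) ^ N := by
  obtain ⟨B, hB, hcB⟩ := h.Ta_eq hr
  have hbm := h.cop_bm hr
  obtain ⟨A, hA⟩ := h.swap.pow_Ta hbm
  have hN0 : N ≠ 0 := by have := h.hN; omega
  have hαa : α ∣ a := by rw [h.ha]; exact Dvd.intro_left _ rfl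
  have hcA : Nat.Coprime α A := by
    have h1 : Nat.Coprime Tb a := Nat.Coprime.coprime_dvd_right (Dvd.intro _ rfl) h.copb
    rw [hA] at h1
    exact (Nat.Coprime.coprime_dvd_left (dvd_pow_self A hN0)
      (Nat.Coprime.coprime_dvd_right hαa h1)).symm
  exact caseII h.hj h.hm h.hN h.αpos hαg (by rw [← hB]; exact h.hP) (by rw [← hA]; exact h.hQ)
    hcA (Nat.Coprime.coprime_dvd_left hαa hcB) hD hf rfl

/-- `z` even: `α` odd and coprime to `m`, the bound for `β` -/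
theorem Cfg.boundI (h : Cfg m N j z 2 1 a b α β Ta Tb) (hα : Odd α) (hc : Nat.Coprime a m)
    {β₁ D : ℕ} (hD : β = β₁ * D) (hf : Free N β₁) :
    max (α ^ 2) (β ^ 2) ^ (3 * (j + 1)) ≤ (N * (4 ^ j * D ^ 2)) ^ N := by
  obtain ⟨B, hB⟩ := h.pow_Ta hc
  have hN0 : N ≠ 0 := by have := h.hN; omega
  have hαa : α ∣ a := by rw [h.ha]; exact Dvd.intro_left _ rfl
  have hβb : β ∣ b := by rw [h.hb]; exact Dvd.intro_left _ rfl
  have hcTa := h.cop_Ta hc
  -- `α` and `b`
  have hαb : Nat.Coprime α b := by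
    rw [Nat.coprime_iff_gcd_eq_one]
    by_contra hne
    obtain ⟨p, hp, hpd⟩ := Nat.exists_prime_and_dvd hne
    have h1 : p ∣ α := hpd.trans (Nat.gcd_dvd_left _ _)
    have h2 : p ∣ b := hpd.trans (Nat.gcd_dvd_right _ _)
    have h3 := h.gcdab p hp (h1.trans hαa) h2
    subst h3
    exact (Nat.not_even_iff_odd.2 hα) (even_iff_two_dvd.2 h1)
  have hαTb : Nat.Coprime α Tb :=
    (Nat.Coprime.coprime_dvd_right (hαa.trans (Dvd.intro _ rfl)) h.copb).symm
  have hα2 : Nat.Coprime α 2 := hα.coprime_two_right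
  have h1 : Nat.Coprime α (2 * (Ta * (b * Tb))) :=
    Nat.Coprime.mul_right hα2 (Nat.Coprime.mul_right
      (Nat.Coprime.coprime_dvd_right hαa hcTa).symm (Nat.Coprime.mul_right hαb hαTb))
  obtain ⟨c, hcα⟩ := nat_pow_of_mul (c := z) (k := N) h1 (by rw [← h.prod, h.ha]; ring)
  have hβc : Nat.Coprime β c := by
    have h2 : Nat.Coprime β α := (Nat.Coprime.coprime_dvd_right hβb hαb).symm
    rw [hcα] at h2
    exact Nat.Coprime.coprime_dvd_right (dvd_pow_self c hN0) h2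
  have hβB : Nat.Coprime β B := by
    have h2 : Nat.Coprime Ta β := Nat.Coprime.coprime_dvd_right (hβb.trans (Dvd.intro _ rfl)) h.copa
    rw [hB] at h2
    exact (Nat.Coprime.coprime_dvd_left (dvd_pow_self B hN0) h2).symm
  have hP := h.hP
  rw [one_mul, hB] at hP
  exact caseI h.hj h.hN h.βpos hP hcα hβc hβB hD hf rfl

end

end Pool.Agent.H27.BN
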