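import Pool.Agent.H27.BN.Forms

set_option autoImplicit false

/-!
# The three congruence arguments
-/

namespace Pool.Agent.H27.BN

/-- `α` is divisible by all primes of `m`: congruence modulo `α²` -/
theorem caseII {j α β g A B α₁ D m N M : ℕ} (hj : 1 ≤ j) (hm : m = 2 * j + 1)
    (hN : N = 4 * j + 3) (hα : 0 < α) (hαg : Nat.Coprime α g)
    (hP : g * (m * B ^ N) = (PN (α ^ 2) (β ^ 2) j).1) (hQ : g * A ^ N = (PN (α ^ 2) (β ^ 2) j).2)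
    (hA : Nat.Coprime α A) (hB : Nat.Coprime α B) (hD : α = α₁ * D) (hf : Free N α₁)
    (hM : M = max (α ^ 2) (β ^ 2)) :
    g * M ^ (3 * (j + 1)) ≤ (N * (m * 4 ^ j * D ^ 2)) ^ N := by
  have hα2 : 0 < α ^ 2 := pow_pos hα 2
  have ha : α ^ 2 ≤ M := hM ▸ le_max_left _ _
  have hb : β ^ 2 ≤ M := hM ▸ le_max_right _ _
  have hα₁ : 0 < α₁ := by
    rcases Nat.eq_zero_or_pos α₁ with h | h
    · rw [h, zero_mul] at hD; omega
    · exact h
  have hK := PN_K (α ^ 2) (β ^ 2) j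
  have hKpos : 0 < KN (α ^ 2) (β ^ 2) j := KN_pos j hj (Or.inl hα2)
  have hNo : Odd N := by rw [hN]; exact ⟨2 * j + 1, by ring⟩
  rw [← hP, ← hQ, ← hm] at hK
  have h1 : g * (m * A ^ N) = g * (m * B ^ N) + α ^ 2 * KN (α ^ 2) (β ^ 2) j := by
    rw [← hK]; ring
  have hlt : B ^ N < A ^ N := by
    have h2 : g * (m * B ^ N) < g * (m * A ^ N) := by
      rw [h1]
      exact Nat.lt_add_of_pos_right (Nat.mul_pos hα2 hKpos)
    exact Nat.lt_of_mul_lt_mul_left (Nat.lt_of_mul_lt_mul_left h2)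
  have hBA : B < A := lt_of_pow_lt_pow_left₀ N (Nat.zero_le _) hlt
  have h3 : g * (m * (A ^ N - B ^ N)) = α ^ 2 * KN (α ^ 2) (β ^ 2) j := by
    rw [Nat.mul_sub, Nat.mul_sub, h1, Nat.add_sub_cancel_left]
  have h4 : α ^ 2 ∣ m * (A ^ N - B ^ N) :=
    (Nat.Coprime.pow_left 2 hαg).dvd_of_dvd_mul_left (Dvd.intro _ h3.symm)
  have h5 : α₁ ^ 2 ∣ α ^ 2 := by
    rw [hD, mul_pow]
    exact Dvd.intro _ rfl
  have hα₁α : α₁ ∣ α := by rw [hD]; exact Dvd.intro _ rfl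
  have h6 : α₁ ^ 2 ∣ m * (N * (A - B)) :=
    root_dvd hNo hBA (by omega) (pow_pos hα₁ 2).ne' (hf.pow 2)
      (Nat.Coprime.pow_left 2 (Nat.Coprime.coprime_dvd_left hα₁α hA))
      (Nat.Coprime.pow_left 2 (Nat.Coprime.coprime_dvd_left hα₁α hB)) (h5.trans h4)
  have hML : M ^ j ≤ g * A ^ N := by
    rw [hQ]
    obtain ⟨-, -, h7, h8⟩ := PN_lower (α ^ 2) (β ^ 2) j
    rw [hM]
    rcases max_choice (α ^ 2) (β ^ 2) with h | h <;> rw [h]
    · exact h7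
    · exact h8
  have hMK : KN (α ^ 2) (β ^ 2) j ≤ m * (4 ^ j * M ^ (j - 1)) := by
    obtain ⟨i, rfl⟩ : ∃ i, j = i + 1 := ⟨j - 1, by omega⟩
    have h7 := KN_upper ha hb i
    rw [hm]
    exact h7
  refine engine (V := D ^ 2 * KN (α ^ 2) (β ^ 2) j) hj hN hBA (pow_pos hα₁ 2)
    (lt_of_lt_of_le hα2 ha) (by omega) h6 ?_ hML ?_
  · rw [h3, hD]; ring
  · calc D ^ 2 * KN (α ^ 2) (β ^ 2) j ≤ D ^ 2 * (m * (4 ^ j * M ^ (j - 1))) :=
          Nat.mul_le_mul_left _ hMK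
      _ = m * 4 ^ j * D ^ 2 * M ^ (j - 1) := by ring

/-- `α` is coprime to `m`: congruence modulo `β²` -/
theorem caseI {j α β B c β₁ D N M : ℕ} (hj : 1 ≤ j) (hN : N = 4 * j + 3) (hβ : 0 < β)
    (hP : B ^ N = (PN (α ^ 2) (β ^ 2) j).1) (hα : α = c ^ N)
    (hc : Nat.Coprime β c) (hB : Nat.Coprime β B) (hD : β = β₁ * D) (hf : Free N β₁)
    (hM : M = max (α ^ 2) (β ^ 2)) :
    M ^ (3 * (j + 1)) ≤ (N * (4 ^ j * D ^ 2)) ^ N := by
  have hβ2 : 0 < β ^ 2 := pow_pos hβ 2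
  have ha : α ^ 2 ≤ M := hM ▸ le_max_left _ _
  have hb : β ^ 2 ≤ M := hM ▸ le_max_right _ _
  have hβ₁ : 0 < β₁ := by
    rcases Nat.eq_zero_or_pos β₁ with h | h
    · rw [h, zero_mul] at hD; omega
    · exact h
  have hW := PN_W (α ^ 2) (β ^ 2) j
  have hWpos : 0 < WN (α ^ 2) (β ^ 2) j := WN_pos j hj (Or.inr hβ2)
  have hNo : Odd N := by rw [hN]; exact ⟨2 * j + 1, by ring⟩
  rw [← hP] at hW
  have hC : (α ^ 2) ^ j = (c ^ (2 * j)) ^ N := by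
    rw [hα, ← pow_mul, ← pow_mul, ← pow_mul]
    congr 1
    ring
  rw [hC] at hW
  have hlt : (c ^ (2 * j)) ^ N < B ^ N := by
    rw [hW]
    exact Nat.lt_add_of_pos_right (Nat.mul_pos hβ2 hWpos)
  have hCB : c ^ (2 * j) < B := lt_of_pow_lt_pow_left₀ N (Nat.zero_le _) hlt
  have h3 : 1 * (1 * (B ^ N - (c ^ (2 * j)) ^ N)) = β ^ 2 * WN (α ^ 2) (β ^ 2) j := by
    rw [hW, one_mul, one_mul, Nat.add_sub_cancel_left]
  have h5 : β₁ ^ 2 ∣ β ^ 2 := by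
    rw [hD, mul_pow]
    exact Dvd.intro _ rfl
  have hβ₁β : β₁ ∣ β := by rw [hD]; exact Dvd.intro _ rfl
  have h4 : β ^ 2 ∣ 1 * (B ^ N - (c ^ (2 * j)) ^ N) := by
    rw [one_mul] at h3
    exact Dvd.intro _ h3.symm
  have h6 : β₁ ^ 2 ∣ 1 * (N * (B - c ^ (2 * j))) :=
    root_dvd hNo hCB one_ne_zero (pow_pos hβ₁ 2).ne' (hf.pow 2)
      (Nat.Coprime.pow_left 2 (Nat.Coprime.coprime_dvd_left hβ₁β hB))
      (Nat.Coprime.pow_left 2 (Nat.Coprime.pow_right (2 * j)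
        (Nat.Coprime.coprime_dvd_left hβ₁β hc))) (h5.trans h4)
  have hML : M ^ j ≤ 1 * B ^ N := by
    rw [hP, one_mul]
    obtain ⟨h7, h8, -, -⟩ := PN_lower (α ^ 2) (β ^ 2) j
    rw [hM]
    rcases max_choice (α ^ 2) (β ^ 2) with h | h <;> rw [h]
    · exact h7
    · exact h8
  have hMK : WN (α ^ 2) (β ^ 2) j ≤ 4 ^ j * M ^ (j - 1) := by
    obtain ⟨i, rfl⟩ : ∃ i, j = i + 1 := ⟨j - 1, by omega⟩
    exact WN_upper ha hb i
  have := engine (V := D ^ 2 * WN (α ^ 2) (β ^ 2) j) (Y := 4 ^ j * D ^ 2) hj hN hCB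
    (pow_pos hβ₁ 2) (lt_of_lt_of_le hβ2 hb) one_pos h6 (by rw [h3, hD]; ring) hML (by
      calc D ^ 2 * WN (α ^ 2) (β ^ 2) j ≤ D ^ 2 * (4 ^ j * M ^ (j - 1)) :=
          Nat.mul_le_mul_left _ hMK
      _ = 4 ^ j * D ^ 2 * M ^ (j - 1) := by ring)
  rwa [one_mul] at this

/-- `(u + v) ^ (k + 2) ≤ u ^ (k + 2) + v ^ (k + 2) + (k + 2) u v (u + v) ^ k` -/
theorem add_pow_upper (u v k : ℕ) :
    (u + v) ^ (k + 2) ≤ u ^ (k + 2) + v ^ (k + 2) + (k + 2) * (u * v * (u + v) ^ k) := by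
  induction k with
  | zero => simp; nlinarith
  | succ k ih =>
    have h1 : u ^ (k + 1) + v ^ (k + 1) ≤ (u + v) ^ (k + 1) := pow_add_pow_le (Nat.zero_le _) (Nat.zero_le _) (by omega)
    have h2 := Nat.mul_le_mul_left (u + v) ih
    have h3 := Nat.mul_le_mul_left (u * v) h1
    have e1 : (u + v) ^ (k + 1 + 2) = (u + v) * (u + v) ^ (k + 2) := by ring
    have e2 : (u + v) * (u ^ (k + 2) + v ^ (k + 2) + (k + 2) * (u * v * (u + v) ^ k)) =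
      u ^ (k + 1 + 2) + v ^ (k + 1 + 2) + u * v * (u ^ (k + 1) + v ^ (k + 1)) +
        (k + 2) * (u * v * (u + v) ^ (k + 1)) := by ring
    have e3 : (k + 1 + 2) * (u * v * (u + v) ^ (k + 1)) =
      u * v * (u + v) ^ (k + 1) + (k + 2) * (u * v * (u + v) ^ (k + 1)) := by ring
    rw [e1, e3]
    rw [e2] at h2
    omega

/-- `(u + v) ^ m = u ^ m + v ^ m + u v (u + v) R` for odd `m` -/
theorem exists_R (u v j : ℕ) : ∃ R : ℕ, (u + v) ^ (2 * j + 1) =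
    u ^ (2 * j + 1) + v ^ (2 * j + 1) + u * v * (u + v) * R := by
  induction j with
  | zero => exact ⟨0, by ring⟩
  | succ j ih =>
    obtain ⟨R, hR⟩ := ih
    obtain ⟨G, hG⟩ : u + v ∣ u ^ (2 * j + 1) + v ^ (2 * j + 1) :=
      Odd.nat_add_dvd_pow_add_pow u v ⟨j, rfl⟩
    have h1 : (u + v) ^ (2 * (j + 1) + 1) = (u + v) ^ 2 * (u + v) ^ (2 * j + 1) := by ring
    rcases Nat.eq_zero_or_pos j with hj | hj
    · subst hj
      exact ⟨3, by ring⟩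
    · obtain ⟨i, rfl⟩ : ∃ i, j = i + 1 := ⟨j - 1, by omega⟩
      obtain ⟨G', hG'⟩ : u + v ∣ u ^ (2 * i + 1) + v ^ (2 * i + 1) :=
        Odd.nat_add_dvd_pow_add_pow u v ⟨i, rfl⟩
      refine ⟨(u + v) ^ 2 * R + 2 * G + u * v * G', ?_⟩
      rw [h1, hR]
      have e : (u + v) ^ 2 * (u ^ (2 * (i + 1) + 1) + v ^ (2 * (i + 1) + 1) +
          u * v * (u + v) * R) = u ^ (2 * (i + 1 + 1) + 1) + v ^ (2 * (i + 1 + 1) + 1) +
          u * v * (u + v) * ((u + v) ^ 2 * R) +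
          u * v * (2 * (u ^ (2 * (i + 1) + 1) + v ^ (2 * (i + 1) + 1)) +
            u * v * (u ^ (2 * i + 1) + v ^ (2 * i + 1))) := by ring
      rw [e, hG, hG']
      ring

theorem R_bounds {u v j R : ℕ} (hj : 1 ≤ j) (hu : 0 < u) (hv : 0 < v)
    (h : (u + v) ^ (2 * j + 1) = u ^ (2 * j + 1) + v ^ (2 * j + 1) + u * v * (u + v) * R) :
    0 < R ∧ R ≤ (2 * j + 1) * ((u + v) ^ 2) ^ (j - 1) := by
  have huv : 0 < u * v * (u + v) := by positivity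
  constructor
  · rcases Nat.eq_zero_or_pos R with h0 | h0
    · exfalso
      rw [h0, mul_zero, add_zero] at h
      obtain ⟨i, rfl⟩ : ∃ i, j = i + 1 := ⟨j - 1, by omega⟩
      have h1 : u ^ (2 * (i + 1)) + v ^ (2 * (i + 1)) ≤ (u + v) ^ (2 * (i + 1)) :=
        pow_add_pow_le (Nat.zero_le _) (Nat.zero_le _) (by omega)
      have h2 := Nat.mul_le_mul_left (u + v) h1
      have e1 : (u + v) * (u + v) ^ (2 * (i + 1)) = (u + v) ^ (2 * (i + 1) + 1) := by ring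
      have e2 : (u + v) * (u ^ (2 * (i + 1)) + v ^ (2 * (i + 1))) =
        u ^ (2 * (i + 1) + 1) + v ^ (2 * (i + 1) + 1) + (v * u ^ (2 * (i + 1)) +
          u * v ^ (2 * (i + 1))) := by ring
      have h3 : 0 < v * u ^ (2 * (i + 1)) := by positivity
      rw [e1, e2, h] at h2
      omega
    · exact h0
  · obtain ⟨i, rfl⟩ : ∃ i, j = i + 1 := ⟨j - 1, by omega⟩
    have h1 := add_pow_upper u v (2 * i + 1)
    have e : 2 * i + 1 + 2 = 2 * (i + 1) + 1 := by ring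
    rw [e, h] at h1
    have h2 : u * v * (u + v) * R ≤ u * v * (u + v) * ((2 * (i + 1) + 1) * ((u + v) ^ 2) ^ i) := by
      have e2 : (2 * (i + 1) + 1) * (u * v * (u + v) ^ (2 * i + 1)) =
        u * v * (u + v) * ((2 * (i + 1) + 1) * ((u + v) ^ 2) ^ i) := by
        rw [← pow_mul]; ring
      rw [← e2]
      omega
    have h3 := Nat.le_of_mul_le_mul_left h2 huv
    rw [Nat.add_sub_cancel]
    exact h3

/-- congruence modulo `x y` -/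
theorem caseIII {j E F R x y x₁ y₁ D₁ D₂ s N : ℕ} (hj : 1 ≤ j) (hN : N = 4 * j + 3)
    (hx : 0 < x) (hy : 0 < y) (hs : 0 < s) (h : E ^ N = F ^ N + x * y * R) (hR : 0 < R)
    (hRs : R ≤ (2 * j + 1) * (s ^ 2) ^ (j - 1)) (hE : (s ^ 2) ^ j ≤ E ^ N)
    (hcE : Nat.Coprime (x * y) E) (hcF : Nat.Coprime (x * y) F)
    (hx₁ : x = x₁ * D₁) (hy₁ : y = y₁ * D₂) (hf₁ : Free N x₁) (hf₂ : Free N y₁) :
    (s ^ 2) ^ (3 * (j + 1)) ≤ (N * ((2 * j + 1) * (D₁ * D₂))) ^ N := by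
  have hxy : 0 < x * y := Nat.mul_pos hx hy
  have hx₁p : 0 < x₁ := by
    rcases Nat.eq_zero_or_pos x₁ with h | h
    · rw [h, zero_mul] at hx₁; omega
    · exact h
  have hy₁p : 0 < y₁ := by
    rcases Nat.eq_zero_or_pos y₁ with h | h
    · rw [h, zero_mul] at hy₁; omega
    · exact h
  have hNo : Odd N := by rw [hN]; exact ⟨2 * j + 1, by ring⟩
  have hlt : F ^ N < E ^ N := by
    rw [h]
    exact Nat.lt_add_of_pos_right (Nat.mul_pos hxy hR)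
  have hFE : F < E := lt_of_pow_lt_pow_left₀ N (Nat.zero_le _) hlt
  have h3 : 1 * (1 * (E ^ N - F ^ N)) = x * y * R := by
    rw [h, one_mul, one_mul, Nat.add_sub_cancel_left]
  have h5 : x₁ * y₁ ∣ x * y := by
    rw [hx₁, hy₁]
    exact ⟨D₁ * D₂, by ring⟩
  have h4 : x * y ∣ 1 * (E ^ N - F ^ N) := by
    rw [one_mul] at h3
    exact Dvd.intro _ h3.symm
  have h6 : x₁ * y₁ ∣ 1 * (N * (E - F)) :=
    root_dvd hNo hFE one_ne_zero (Nat.mul_pos hx₁p hy₁p).ne' (hf₁.mul hf₂)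
      (Nat.Coprime.coprime_dvd_left h5 hcE) (Nat.Coprime.coprime_dvd_left h5 hcF) (h5.trans h4)
  have := engine (V := D₁ * D₂ * R) (Y := (2 * j + 1) * (D₁ * D₂)) (M := s ^ 2) hj hN hFE
    (Nat.mul_pos hx₁p hy₁p) (pow_pos hs 2) one_pos h6 (by rw [h3, hx₁, hy₁]; ring)
    (by rw [one_mul]; exact hE) (by
      calc D₁ * D₂ * R ≤ D₁ * D₂ * ((2 * j + 1) * (s ^ 2) ^ (j - 1)) :=
          Nat.mul_le_mul_left _ hRs
      _ = (2 * j + 1) * (D₁ * D₂) * (s ^ 2) ^ (j - 1) := by ring)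
  rwa [one_mul] at this

end Pool.Agent.H27.BN
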