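import Pool.Agent.H27.BN.Bounds

set_option autoImplicit false

/-!
# Conclusions
-/

namespace Pool.Agent.H27.BN

open Pool.Agent.H48.BN

theorem num1 : ∀ j : ℕ, 2 ≤ j → 2 * (2 * j + 1) ^ 3 * (4 * j + 3) ^ 2 < 3 ^ (4 * j + 3) := by
  intro j hj
  induction j, hj using Nat.le_induction with
  | base => norm_num
  | succ j hj ih =>
    have h1 : (2 * (j + 1) + 1) ^ 3 ≤ (2 * (2 * j + 1)) ^ 3 := Nat.pow_le_pow_left (by omega) 3
    have h2 : (4 * (j + 1) + 3) ^ 2 ≤ (2 * (4 * j + 3)) ^ 2 := Nat.pow_le_pow_left (by omega) 2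
    have e : 3 ^ (4 * (j + 1) + 3) = 81 * 3 ^ (4 * j + 3) := by
      rw [show 4 * (j + 1) + 3 = 4 * j + 3 + 4 by ring, pow_add]; ring
    calc 2 * (2 * (j + 1) + 1) ^ 3 * (4 * (j + 1) + 3) ^ 2
        ≤ 2 * (2 * (2 * j + 1)) ^ 3 * (2 * (4 * j + 3)) ^ 2 :=
          Nat.mul_le_mul (Nat.mul_le_mul_left 2 h1) h2
      _ = 32 * (2 * (2 * j + 1) ^ 3 * (4 * j + 3) ^ 2) := by ring
      _ < 3 ^ (4 * (j + 1) + 3) := by rw [e]; omega

theorem num2 : ∀ j : ℕ, 1 ≤ j →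
    8 * ((4 * j + 3) * ((2 * j + 1) * 4 ^ j * 1 ^ 2)) ^ 2 * (2 * j + 1) ^ 3 < 27 ^ (4 * j + 3) := by
  intro j hj
  induction j, hj using Nat.le_induction with
  | base => norm_num
  | succ j hj ih =>
    have h1 : (4 * (j + 1) + 3) * ((2 * (j + 1) + 1) * 4 ^ (j + 1) * 1 ^ 2) ≤
        16 * ((4 * j + 3) * ((2 * j + 1) * 4 ^ j * 1 ^ 2)) := by
      have e1 : 4 * (j + 1) + 3 ≤ 2 * (4 * j + 3) := by omega
      have e2 : 2 * (j + 1) + 1 ≤ 2 * (2 * j + 1) := by omega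
      calc (4 * (j + 1) + 3) * ((2 * (j + 1) + 1) * 4 ^ (j + 1) * 1 ^ 2)
          ≤ (2 * (4 * j + 3)) * ((2 * (2 * j + 1)) * 4 ^ (j + 1) * 1 ^ 2) :=
            Nat.mul_le_mul e1 (Nat.mul_le_mul_right _ (Nat.mul_le_mul_right _ e2))
        _ = 16 * ((4 * j + 3) * ((2 * j + 1) * 4 ^ j * 1 ^ 2)) := by rw [pow_succ]; ring
    have h2 := Nat.pow_le_pow_left h1 2
    have h3 : (2 * (j + 1) + 1) ^ 3 ≤ (2 * (2 * j + 1)) ^ 3 := Nat.pow_le_pow_left (by omega) 3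
    have e : 27 ^ (4 * (j + 1) + 3) = 531441 * 27 ^ (4 * j + 3) := by
      rw [show 4 * (j + 1) + 3 = 4 * j + 3 + 4 by ring, pow_add]; ring
    calc 8 * ((4 * (j + 1) + 3) * ((2 * (j + 1) + 1) * 4 ^ (j + 1) * 1 ^ 2)) ^ 2 *
          (2 * (j + 1) + 1) ^ 3
        ≤ 8 * (16 * ((4 * j + 3) * ((2 * j + 1) * 4 ^ j * 1 ^ 2))) ^ 2 *
          (2 * (2 * j + 1)) ^ 3 := Nat.mul_le_mul (Nat.mul_le_mul_left 8 h2) h3
      _ = 2048 * (8 * ((4 * j + 3) * ((2 * j + 1) * 4 ^ j * 1 ^ 2)) ^ 2 * (2 * j + 1) ^ 3) := by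
          ring
      _ < 27 ^ (4 * (j + 1) + 3) := by rw [e]; omega

theorem num3 : ∀ j : ℕ, 1 ≤ j →
    8 * ((4 * j + 3) * ((2 * j + 1) * 4 ^ j * 1 ^ 2)) ^ 2 < 64 ^ (2 * j + 1) := by
  intro j hj
  induction j, hj using Nat.le_induction with
  | base => norm_num
  | succ j hj ih =>
    have h1 : (4 * (j + 1) + 3) * ((2 * (j + 1) + 1) * 4 ^ (j + 1) * 1 ^ 2) ≤
        16 * ((4 * j + 3) * ((2 * j + 1) * 4 ^ j * 1 ^ 2)) := by
      have e1 : 4 * (j + 1) + 3 ≤ 2 * (4 * j + 3) := by omega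
      have e2 : 2 * (j + 1) + 1 ≤ 2 * (2 * j + 1) := by omega
      calc (4 * (j + 1) + 3) * ((2 * (j + 1) + 1) * 4 ^ (j + 1) * 1 ^ 2)
          ≤ (2 * (4 * j + 3)) * ((2 * (2 * j + 1)) * 4 ^ (j + 1) * 1 ^ 2) :=
            Nat.mul_le_mul e1 (Nat.mul_le_mul_right _ (Nat.mul_le_mul_right _ e2))
        _ = 16 * ((4 * j + 3) * ((2 * j + 1) * 4 ^ j * 1 ^ 2)) := by rw [pow_succ]; ring
    have h2 := Nat.pow_le_pow_left h1 2
    have e : 64 ^ (2 * (j + 1) + 1) = 4096 * 64 ^ (2 * j + 1) := by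
      rw [show 2 * (j + 1) + 1 = 2 * j + 1 + 2 by ring, pow_add]; ring
    calc 8 * ((4 * (j + 1) + 3) * ((2 * (j + 1) + 1) * 4 ^ (j + 1) * 1 ^ 2)) ^ 2
        ≤ 8 * (16 * ((4 * j + 3) * ((2 * j + 1) * 4 ^ j * 1 ^ 2))) ^ 2 :=
          Nat.mul_le_mul_left 8 h2
      _ = 256 * (8 * ((4 * j + 3) * ((2 * j + 1) * 4 ^ j * 1 ^ 2)) ^ 2) := by ring
      _ < 64 ^ (2 * (j + 1) + 1) := by rw [e]; omega

/-- a prime factor of `a` which does not divide `b` divides `a m` to the power `N` -/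
theorem Cfg.low {m N j z e g a b α β Ta Tb : ℕ} (h : Cfg m N j z e g a b α β Ta Tb) {p : ℕ}
    (hp : p.Prime) (hpa : p ∣ a) (hpb : ¬ p ∣ b) : p ^ N ∣ a * m := by
  have hN0 : N ≠ 0 := by have := h.hN; omega
  have hpz : p ∣ z := hp.dvd_of_dvd_pow (n := N) (by
    rw [← h.prod]; exact (hpa.mul_right _).mul_right _)
  have h1 : p ^ N ∣ (a * Ta) * (b * Tb) := by
    rw [h.prod]; exact pow_dvd_pow_of_dvd hpz N
  have h2 : ¬ p ∣ b * Tb := by
    intro h3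
    rcases (hp.dvd_mul).1 h3 with h4 | h4
    · exact hpb h4
    · have h5 : p ∣ Nat.gcd Tb (a * Ta) := Nat.dvd_gcd h4 (hpa.mul_right _)
      rw [h.copb] at h5
      exact hp.one_lt.ne' (Nat.dvd_one.1 h5)
  have h3 : p ^ N ∣ a * Ta :=
    (Nat.Coprime.pow_left N ((Nat.Prime.coprime_iff_not_dvd hp).2 h2)).dvd_of_dvd_mul_right h1
  rw [hp.pow_dvd_iff_le_factorization (Nat.mul_pos h.apos h.Tapos).ne',
    Nat.factorization_mul h.apos.ne' h.Tapos.ne', Finsupp.add_apply, h.vala p hp hpa] at h3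
  rw [hp.pow_dvd_iff_le_factorization (Nat.mul_pos h.apos h.mpos).ne',
    Nat.factorization_mul h.apos.ne' h.mpos.ne', Finsupp.add_apply]
  exact h3

/-- all primes of `m` divide `a`: then `a` is large -/
theorem Cfg.lowII {m N j z e g a b α β Ta Tb : ℕ} (h : Cfg m N j z e g a b α β Ta Tb)
    (hr : ∀ p, p.Prime → p ∣ m → p ∣ a) : 3 ^ N ≤ a * m := by
  have hm := h.hm
  have hj := h.hj
  obtain ⟨p, hp, hpm⟩ := Nat.exists_prime_and_dvd (n := m) (by omega)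
  have hp3 : 3 ≤ p := by
    have h2 := hp.two_le
    rcases Nat.lt_or_ge p 3 with h3 | h3
    · have : p = 2 := by omega
      subst this
      exact absurd (even_iff_two_dvd.2 hpm) (Nat.not_even_iff_odd.2 h.hmo)
    · exact h3
  have hpb : ¬ p ∣ b := by
    intro h1
    have := h.gcdab p hp (hr p hp hpm) h1
    omega
  have h1 := Nat.le_of_dvd (Nat.mul_pos h.apos h.mpos) (h.low hp (hr p hp hpm) hpb)
  exact (Nat.pow_le_pow_left hp3 N).trans h1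

/-- contradiction for `D = 1`, first alternative -/
theorem no_one {m N j X a : ℕ} (hj : 1 ≤ j) (hm : m = 2 * j + 1) (hN : N = 4 * j + 3)
    (h : X ^ 3 ≤ 8 * (N * (m * 4 ^ j * 1 ^ 2)) ^ 2) (haX : a ≤ X) (hl : 3 ^ N ≤ a * m) : False := by
  have h1 : 27 ^ N ≤ X ^ 3 * m ^ 3 := by
    calc 27 ^ N = (3 ^ N) ^ 3 := by rw [← pow_mul, mul_comm, pow_mul]; norm_num
      _ ≤ (X * m) ^ 3 := Nat.pow_le_pow_left (hl.trans (Nat.mul_le_mul_right m haX)) 3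
      _ = X ^ 3 * m ^ 3 := by ring
  have h2 := num2 j hj
  rw [← hm, ← hN] at h2
  have h3 := Nat.mul_le_mul_right (m ^ 3) h
  omega

/-- contradiction for `D = 1`, second alternative -/
theorem no_one' {m N j X : ℕ} (hj : 1 ≤ j) (hm : m = 2 * j + 1) (hN : N = 4 * j + 3)
    (h : X ^ 3 ≤ 8 * (N * (m * 4 ^ j * 1 ^ 2)) ^ 2) (hl : 4 ^ m ≤ X) : False := by
  have h1 : 64 ^ m ≤ X ^ 3 := by
    calc 64 ^ m = (4 ^ m) ^ 3 := by rw [← pow_mul, mul_comm, pow_mul]; norm_num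
      _ ≤ X ^ 3 := Nat.pow_le_pow_left hl 3
  have h2 := num3 j hj
  rw [← hm, ← hN] at h2
  omega

/-- even `z`: the side divisible by `4` is at least `4 ^ m` -/
theorem Cfg.lowI {m N j z a b α β Ta Tb : ℕ} (h : Cfg m N j z 2 1 a b α β Ta Tb) (hα : Odd α)
    (hTa : ¬ 2 ∣ Ta) (hTb : ¬ 2 ∣ Tb) : 4 ^ m ≤ b := by
  have h2z : 2 ∣ z := Nat.prime_two.dvd_of_dvd_pow (n := N) (by
    rw [← h.prod, h.ha]; exact (((Dvd.intro _ rfl).mul_right _).mul_right _))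
  have h1 : 2 ^ N ∣ (2 * b) * (α * Ta * Tb) := by
    have e : (2 * b) * (α * Ta * Tb) = z ^ N := by rw [← h.prod, h.ha]; ring
    rw [e]; exact pow_dvd_pow_of_dvd h2z N
  have hα2 : ¬ 2 ∣ α := by
    rw [← even_iff_two_dvd, Nat.not_even_iff_odd]; exact hα
  have h2 : ¬ 2 ∣ α * Ta * Tb := by
    intro h3
    rcases (Nat.prime_two.dvd_mul).1 h3 with h4 | h4
    · rcases (Nat.prime_two.dvd_mul).1 h4 with h5 | h5
      · exact hα2 h5
      · exact hTa h5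
    · exact hTb h4
  have h3 : 2 ^ N ∣ 2 * b :=
    (Nat.Coprime.pow_left N ((Nat.Prime.coprime_iff_not_dvd Nat.prime_two).2 h2)).dvd_of_dvd_mul_right h1
  have hb : 0 < b := h.swap.apos
  have h4 := Nat.le_of_dvd (by omega) h3
  have e : 2 ^ N = 2 * 4 ^ m := by
    have : N = 2 * m + 1 := by have := h.hm; have := h.hN; omega
    rw [this, pow_succ, pow_mul]; norm_num; ring
  omega

/-- parity -/
theorem parity {x y z m N : ℕ} (hm : 0 < m) (hN : 0 < N) (hc : Nat.Coprime x y)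
    (h : x ^ (2 * m) = y ^ (2 * m) + z ^ N) :
    (Odd z → Odd (x + y)) ∧ (Even z → Odd x ∧ Odd y) := by
  have h2m : 2 * m ≠ 0 := by omega
  constructor
  · intro hz
    rw [← Nat.not_even_iff_odd]
    intro he
    have hz' : Odd (z ^ N) := hz.pow
    rw [Nat.even_add] at he
    have h1 : Even (x ^ (2 * m)) ↔ Even (y ^ (2 * m)) := by
      rw [Nat.even_pow' h2m, Nat.even_pow' h2m]; exact he
    rw [h, Nat.even_add] at h1
    have h3 : ¬ Even (z ^ N) := Nat.not_even_iff_odd.2 hz'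
    tauto
  · intro hz
    have hz' : Even (z ^ N) := by rw [Nat.even_pow' hN.ne']; exact hz
    have h1 : Even (x ^ (2 * m)) ↔ Even (y ^ (2 * m)) := by
      rw [h, Nat.even_add]; tauto
    rw [Nat.even_pow' h2m, Nat.even_pow' h2m] at h1
    have h3 : ¬ Even x := by
      intro h4
      have h5 : 2 ∣ Nat.gcd x y :=
        Nat.dvd_gcd (even_iff_two_dvd.1 h4) (even_iff_two_dvd.1 (h1.1 h4))
      rw [hc] at h5
      omega
    exact ⟨Nat.not_even_iff_odd.1 h3, Nat.not_even_iff_odd.1 (fun h4 => h3 (h1.2 h4))⟩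

end Pool.Agent.H27.BN
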