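import Pool.Agent.H27.BN.Root

set_option autoImplicit false

/-!
# The binary forms `((α + β) ^ m ± (α - β) ^ m) / 2`, `m = 2 j + 1`, and size estimates
-/

namespace Pool.Agent.H27.BN

/-- `(α + β) ^ (2 j + 1) = α P (α², β²) + β Q (α², β²)` -/
def PN (a b : ℕ) : ℕ → ℕ × ℕ
  | 0 => (1, 1)
  | j + 1 => ((a + b) * (PN a b j).1 + 2 * b * (PN a b j).2,
      (a + b) * (PN a b j).2 + 2 * a * (PN a b j).1)

theorem PN_succ (a b j : ℕ) : PN a b (j + 1) =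
    ((a + b) * (PN a b j).1 + 2 * b * (PN a b j).2,
      (a + b) * (PN a b j).2 + 2 * a * (PN a b j).1) := rfl

theorem PN_swap (a b j : ℕ) : PN b a j = ((PN a b j).2, (PN a b j).1) := by
  induction j with
  | zero => rfl
  | succ j ih =>
    rw [PN_succ, PN_succ, ih]
    ext
    · simp only; ring
    · simp only; ring

/-- `P = a ^ j + b W` -/
def WN (a b : ℕ) : ℕ → ℕ
  | 0 => 0
  | j + 1 => a * WN a b j + (PN a b j).1 + 2 * (PN a b j).2

/-- `(2 j + 1) Q = P + a K` -/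
def KN (a b : ℕ) : ℕ → ℕ
  | 0 => 0
  | j + 1 => (a + b) * KN a b j + 2 * (PN a b j).2 + 2 * (2 * j + 3) * (PN a b j).1

theorem PN_W (a b j : ℕ) : (PN a b j).1 = a ^ j + b * WN a b j := by
  induction j with
  | zero => simp [PN, WN]
  | succ j ih =>
    have e : (PN a b (j + 1)).1 = a * (PN a b j).1 + b * ((PN a b j).1 + 2 * (PN a b j).2) := by
      rw [PN_succ]; ring
    have e2 : WN a b (j + 1) = a * WN a b j + (PN a b j).1 + 2 * (PN a b j).2 := rfl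
    rw [e, e2]
    conv_lhs => rw [show a * (PN a b j).1 = a * (a ^ j + b * WN a b j) by rw [← ih]]
    ring

theorem PN_K (a b j : ℕ) : (2 * j + 1) * (PN a b j).2 = (PN a b j).1 + a * KN a b j := by
  induction j with
  | zero => simp [PN, KN]
  | succ j ih =>
    have e2 : KN a b (j + 1) =
      (a + b) * KN a b j + 2 * (PN a b j).2 + 2 * (2 * j + 3) * (PN a b j).1 := rfl
    rw [PN_succ, e2]
    simp only
    zify at ih ⊢
    linear_combination (((a : ℤ) + b)) * ih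

theorem PN_lower (a b j : ℕ) : a ^ j ≤ (PN a b j).1 ∧ b ^ j ≤ (PN a b j).1 ∧
    a ^ j ≤ (PN a b j).2 ∧ b ^ j ≤ (PN a b j).2 := by
  induction j with
  | zero => simp [PN]
  | succ j ih =>
    obtain ⟨h1, h2, h3, h4⟩ := ih
    rw [PN_succ]
    simp only
    rw [pow_succ, pow_succ]
    refine ⟨?_, ?_, ?_, ?_⟩
    · have := Nat.mul_le_mul_left a h1
      nlinarith
    · have := Nat.mul_le_mul_left b h2
      nlinarith
    · have := Nat.mul_le_mul_left a h3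
      nlinarith
    · have := Nat.mul_le_mul_left b h4
      nlinarith

theorem PN_upper {a b M : ℕ} (ha : a ≤ M) (hb : b ≤ M) (j : ℕ) :
    (PN a b j).1 ≤ 4 ^ j * M ^ j ∧ (PN a b j).2 ≤ 4 ^ j * M ^ j := by
  induction j with
  | zero => simp [PN]
  | succ j ih =>
    obtain ⟨h1, h2⟩ := ih
    have hab : a + b ≤ 2 * M := by omega
    have e : 4 ^ (j + 1) * M ^ (j + 1) = 2 * M * (4 ^ j * M ^ j) + 2 * M * (4 ^ j * M ^ j) := by
      rw [pow_succ, pow_succ]; ring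
    rw [PN_succ, e]
    simp only
    constructor
    · exact Nat.add_le_add (Nat.mul_le_mul hab h1)
        (Nat.mul_le_mul (Nat.mul_le_mul_left 2 hb) h2)
    · exact Nat.add_le_add (Nat.mul_le_mul hab h2)
        (Nat.mul_le_mul (Nat.mul_le_mul_left 2 ha) h1)

theorem WN_upper {a b M : ℕ} (ha : a ≤ M) (hb : b ≤ M) (j : ℕ) :
    WN a b (j + 1) ≤ 4 ^ (j + 1) * M ^ j := by
  induction j with
  | zero => simp [WN, PN]
  | succ j ih =>
    obtain ⟨h1, h2⟩ := PN_upper ha hb (j + 1)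
    have e : WN a b (j + 1 + 1) =
      a * WN a b (j + 1) + (PN a b (j + 1)).1 + 2 * (PN a b (j + 1)).2 := rfl
    have h3 : a * WN a b (j + 1) ≤ M * (4 ^ (j + 1) * M ^ j) := Nat.mul_le_mul ha ih
    have e2 : 4 ^ (j + 1 + 1) * M ^ (j + 1) =
        M * (4 ^ (j + 1) * M ^ j) + 4 ^ (j + 1) * M ^ (j + 1) + 2 * (4 ^ (j + 1) * M ^ (j + 1)) := by
      rw [pow_succ 4 (j + 1), pow_succ M j]; ring
    rw [e, e2]
    omega

theorem KN_upper {a b M : ℕ} (ha : a ≤ M) (hb : b ≤ M) (j : ℕ) :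
    KN a b (j + 1) ≤ (2 * j + 3) * (4 ^ (j + 1) * M ^ j) := by
  induction j with
  | zero => simp [KN, PN]
  | succ j ih =>
    obtain ⟨h1, h2⟩ := PN_upper ha hb (j + 1)
    have hab : a + b ≤ 2 * M := by omega
    have e : KN a b (j + 1 + 1) = (a + b) * KN a b (j + 1) + 2 * (PN a b (j + 1)).2 +
      2 * (2 * (j + 1) + 3) * (PN a b (j + 1)).1 := rfl
    have h3 : (a + b) * KN a b (j + 1) ≤ 2 * M * ((2 * j + 3) * (4 ^ (j + 1) * M ^ j)) :=
      Nat.mul_le_mul hab ih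
    have h4 := Nat.mul_le_mul_left (2 * (2 * (j + 1) + 3)) h1
    have e1 : 2 * M * ((2 * j + 3) * (4 ^ (j + 1) * M ^ j)) =
        (4 * j + 6) * (4 ^ (j + 1) * M ^ (j + 1)) := by rw [pow_succ M j]; ring
    have e2 : (2 * (j + 1) + 3) * (4 ^ (j + 1 + 1) * M ^ (j + 1)) =
        (8 * j + 20) * (4 ^ (j + 1) * M ^ (j + 1)) := by rw [pow_succ 4 (j + 1)]; ring
    rw [e, e2]
    rw [e1] at h3
    nlinarith

theorem WN_pos {a b : ℕ} (j : ℕ) (hj : 1 ≤ j) (hab : 0 < a ∨ 0 < b) : 0 < WN a b j := by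
  obtain ⟨i, rfl⟩ : ∃ i, j = i + 1 := ⟨j - 1, by omega⟩
  have e : WN a b (i + 1) = a * WN a b i + (PN a b i).1 + 2 * (PN a b i).2 := rfl
  obtain ⟨h1, h2, -, -⟩ := PN_lower a b i
  have h3 : 0 < (PN a b i).1 := by
    rcases hab with h | h
    · exact lt_of_lt_of_le (pow_pos h i) h1
    · exact lt_of_lt_of_le (pow_pos h i) h2
  rw [e]
  omega

theorem KN_pos {a b : ℕ} (j : ℕ) (hj : 1 ≤ j) (hab : 0 < a ∨ 0 < b) : 0 < KN a b j := by
  obtain ⟨i, rfl⟩ : ∃ i, j = i + 1 := ⟨j - 1, by omega⟩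
  have e : KN a b (i + 1) =
    (a + b) * KN a b i + 2 * (PN a b i).2 + 2 * (2 * i + 3) * (PN a b i).1 := rfl
  obtain ⟨-, -, h1, h2⟩ := PN_lower a b i
  have h3 : 0 < (PN a b i).2 := by
    rcases hab with h | h
    · exact lt_of_lt_of_le (pow_pos h i) h1
    · exact lt_of_lt_of_le (pow_pos h i) h2
  rw [e]
  have : 0 ≤ (a + b) * KN a b i := Nat.zero_le _
  have : 0 ≤ 2 * (2 * i + 3) * (PN a b i).1 := Nat.zero_le _
  omega

/-- sums and differences of odd powers -/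
theorem pow_PN {x y α β : ℕ} (hx : x = α + β) (hy : y + β = α) (j : ℕ) :
    x ^ (2 * j + 1) + y ^ (2 * j + 1) = 2 * (α * (PN (α ^ 2) (β ^ 2) j).1) ∧
      x ^ (2 * j + 1) = y ^ (2 * j + 1) + 2 * (β * (PN (α ^ 2) (β ^ 2) j).2) := by
  have key : ∀ i : ℕ, ((x : ℤ) ^ (2 * i + 1) = α * (PN (α ^ 2) (β ^ 2) i).1 +
      β * (PN (α ^ 2) (β ^ 2) i).2) ∧ ((y : ℤ) ^ (2 * i + 1) = α * (PN (α ^ 2) (β ^ 2) i).1 -
      β * (PN (α ^ 2) (β ^ 2) i).2) := by
    have hx' : (x : ℤ) = α + β := by rw [hx]; push_cast; ring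
    have hy' : (y : ℤ) = α - β := by rw [← hy]; push_cast; ring
    intro i
    induction i with
    | zero =>
      simp only [PN]
      push_cast
      rw [hx', hy']
      constructor <;> ring
    | succ i ih =>
      obtain ⟨h1, h2⟩ := ih
      have e1 : (x : ℤ) ^ (2 * (i + 1) + 1) = (x : ℤ) ^ 2 * (x : ℤ) ^ (2 * i + 1) := by ring
      have e2 : (y : ℤ) ^ (2 * (i + 1) + 1) = (y : ℤ) ^ 2 * (y : ℤ) ^ (2 * i + 1) := by ring
      rw [e1, e2, h1, h2, hx', hy', PN_succ]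
      push_cast
      constructor <;> ring
  obtain ⟨h1, h2⟩ := key j
  constructor
  · zify
    rw [h1, h2]
    ring
  · zify
    rw [h1, h2]
    ring

/-- the size argument -/
theorem engine {E F N t w V g M Y j : ℕ} (hj : 1 ≤ j) (hN : N = 4 * j + 3) (hFE : F < E)
    (hw0 : 0 < w) (hM0 : 0 < M) (ht : 0 < t) (hw : w ∣ t * (N * (E - F)))
    (hV : g * (t * (E ^ N - F ^ N)) = w * V) (hM : M ^ j ≤ g * E ^ N)
    (hY : V ≤ Y * M ^ (j - 1)) : g * M ^ (3 * (j + 1)) ≤ (N * Y) ^ N := by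
  have hN0 : 0 < N := by omega
  have h1 : w ≤ t * (N * (E - F)) :=
    Nat.le_of_dvd (Nat.mul_pos ht (Nat.mul_pos hN0 (by omega))) hw
  have h2 := sub_mul_le hFE.le hN0
  have h3 : w * (g * E ^ (N - 1)) ≤ w * (N * V) := by
    calc w * (g * E ^ (N - 1)) ≤ (t * (N * (E - F))) * (g * E ^ (N - 1)) :=
          Nat.mul_le_mul_right _ h1
      _ = g * t * N * ((E - F) * E ^ (N - 1)) := by ring
      _ ≤ g * t * N * (E ^ N - F ^ N) := Nat.mul_le_mul_left _ h2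
      _ = N * (g * (t * (E ^ N - F ^ N))) := by ring
      _ = w * (N * V) := by rw [hV]; ring
  have h4 : g * E ^ (N - 1) ≤ N * V := Nat.le_of_mul_le_mul_left h3 hw0
  have h5 : (g * E ^ (N - 1)) ^ N ≤ (N * (Y * M ^ (j - 1))) ^ N :=
    Nat.pow_le_pow_left (h4.trans (Nat.mul_le_mul_left N hY)) N
  have h6 : (g * E ^ (N - 1)) ^ N = g * (g * E ^ N) ^ (N - 1) := by
    obtain ⟨k, rfl⟩ : ∃ k, N = k + 1 := ⟨N - 1, by omega⟩
    rw [Nat.add_sub_cancel, mul_pow, mul_pow, ← pow_mul, ← pow_mul, pow_succ g k,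
      mul_comm k (k + 1)]
    ring
  have h7 : g * (M ^ j) ^ (N - 1) ≤ g * (g * E ^ N) ^ (N - 1) :=
    Nat.mul_le_mul_left g (Nat.pow_le_pow_left hM (N - 1))
  have h8 : (N * (Y * M ^ (j - 1))) ^ N = (N * Y) ^ N * M ^ ((j - 1) * N) := by
    rw [← mul_assoc, mul_pow, ← pow_mul]
  have h9 : g * (M ^ j) ^ (N - 1) = g * M ^ (3 * (j + 1)) * M ^ ((j - 1) * N) := by
    rw [← pow_mul, mul_assoc, ← pow_add]
    congr 2
    subst hN
    obtain ⟨i, rfl⟩ : ∃ i, j = i + 1 := ⟨j - 1, by omega⟩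
    have e : 4 * (i + 1) + 3 - 1 = 4 * i + 6 := by omega
    have e' : i + 1 - 1 = i := by omega
    rw [e, e']
    ring
  rw [h6] at h5
  have h10 : g * M ^ (3 * (j + 1)) * M ^ ((j - 1) * N) ≤ (N * Y) ^ N * M ^ ((j - 1) * N) := by
    rw [← h9, ← h8]
    exact h7.trans h5
  exact Nat.le_of_mul_le_mul_right h10 (pow_pos hM0 _)

/-- from `M ^ (3 (j + 1)) ≤ K ^ N` to `M ^ 3 ≤ K ^ 4` -/
theorem cube_le {M K N j : ℕ} (hN : N = 4 * j + 3) (hM : 0 < M)
    (h : M ^ (3 * (j + 1)) ≤ K ^ N) : M ^ 3 ≤ K ^ 4 := by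
  have h1 : (M ^ 3) ^ N ≤ (K ^ 4) ^ N := by
    calc (M ^ 3) ^ N = M ^ (3 * N) := by rw [pow_mul]
      _ ≤ M ^ (3 * (j + 1) * 4) := Nat.pow_le_pow_right hM (by omega)
      _ = (M ^ (3 * (j + 1))) ^ 4 := by rw [pow_mul]
      _ ≤ (K ^ N) ^ 4 := Nat.pow_le_pow_left h 4
      _ = (K ^ 4) ^ N := by rw [← pow_mul, ← pow_mul, mul_comm]
  exact le_of_pow_le_pow_left₀ (by omega) (Nat.zero_le _) h1

end Pool.Agent.H27.BN
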