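import Pool.Agent.H27.BN.Fin

set_option autoImplicit false

/-!
# The main theorems
-/

namespace Pool.Agent.H27.BN

open Pool.Agent.H48.BN

theorem side_odd {m N j z a b Ta Tb X : ℕ} (h : Cfg m N j z 1 (4 ^ j) a b a b Ta Tb)
    (hX : X = max a b) (hao : Odd a) (hr : ∀ p, p.Prime → p ∣ m → p ∣ a) :
    (∀ u₁ D, a = u₁ * D → Free N u₁ → X ^ 3 ≤ 8 * (N * (m * 4 ^ j * D ^ 2)) ^ 2) ∧ ¬ Free N a := by
  have h1 : ∀ u₁ D, a = u₁ * D → Free N u₁ → X ^ 3 ≤ 8 * (N * (m * 4 ^ j * D ^ 2)) ^ 2 :=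
    fun u₁ D hD hf => bound_odd h hX hao hr hD hf
  refine ⟨h1, fun hf => ?_⟩
  exact no_one h.hj h.hm h.hN (h1 a 1 (by ring) hf) (by rw [hX]; exact le_max_left _ _)
    (h.lowII hr)

theorem side_even {m N j z a b α β Ta Tb X : ℕ} (h : Cfg m N j z 2 1 a b α β Ta Tb)
    (hX : X = max a b) (hr : ∀ p, p.Prime → p ∣ m → p ∣ a) :
    (∀ u₁ D, a = u₁ * D → Free N u₁ → X ^ 3 ≤ 8 * (N * (m * 4 ^ j * D ^ 2)) ^ 2) ∧ ¬ Free N a := by
  have h1 : ∀ u₁ D, a = u₁ * D → Free N u₁ → X ^ 3 ≤ 8 * (N * (m * 4 ^ j * D ^ 2)) ^ 2 :=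
    fun u₁ D hD hf => bound_even h hX hr hD hf
  refine ⟨h1, fun hf => ?_⟩
  exact no_one h.hj h.hm h.hN (h1 a 1 (by ring) hf) (by rw [hX]; exact le_max_left _ _)
    (h.lowII hr)

theorem side_even' {m N j z a b α β Ta Tb X : ℕ} (h : Cfg m N j z 2 1 a b α β Ta Tb)
    (hX : X = max a b) (hα : Odd α) (hc : Nat.Coprime a m) (hTa : ¬ 2 ∣ Ta) (hTb : ¬ 2 ∣ Tb) :
    (∀ u₁ D, b = u₁ * D → Free N u₁ → X ^ 3 ≤ 8 * (N * (m * 4 ^ j * D ^ 2)) ^ 2) ∧ ¬ Free N b := by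
  have h1 : ∀ u₁ D, b = u₁ * D → Free N u₁ → X ^ 3 ≤ 8 * (N * (m * 4 ^ j * D ^ 2)) ^ 2 :=
    fun u₁ D hD hf => bound_even' h hX hα hc hD hf
  refine ⟨h1, fun hf => ?_⟩
  exact no_one' h.hj h.hm h.hN (h1 b 1 (by ring) hf)
    ((h.lowI hα hTa hTb).trans (by rw [hX]; exact le_max_right _ _))

/-- bounds through the special part of `x ± y` -/
theorem main_side {m N j x y z u v : ℕ} (hj : 1 ≤ j) (hm : m = 2 * j + 1) (hN : N = 4 * j + 3)
    (hy : 0 < y) (hz : 0 < z) (h : x ^ (2 * m) = y ^ (2 * m) + z ^ N)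
    (hg : Nat.gcd (Nat.gcd x y) z = 1)
    (huv : (u = x + y ∧ v = x - y) ∨ (u = x - y ∧ v = x + y))
    (hr : (∀ p, p.Prime → p ∣ m → p ∣ u) ∨ (4 ∣ u ∧ Nat.Coprime v m)) :
    (∀ u₁ D, u = u₁ * D → Free N u₁ → (x + y) ^ 3 ≤ 8 * (N * (m * 4 ^ j * D ^ 2)) ^ 2) ∧
      ¬ Free N u := by
  have hmo : Odd m := ⟨j, hm⟩
  have hxy : y < x := y_lt_x hz h
  have hc : Nat.Coprime x y := coprime_xy (by omega) hg h
  obtain ⟨Ta, Tb, q⟩ := quot_exists hmo hy hxy hc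
  obtain ⟨par1, par2⟩ := parity (by omega) (by omega) hc h
  have hmax : x + y = max (x + y) (x - y) := (max_eq_left (by omega)).symm
  have hmax' : x + y = max (x - y) (x + y) := (max_eq_right (by omega)).symm
  rcases Nat.even_or_odd z with hze | hzo
  · obtain ⟨hxo, hyo⟩ := par2 hze
    obtain ⟨α, hα⟩ : ∃ α, x + y = 2 * α := by
      obtain ⟨a, ha⟩ := hxo
      obtain ⟨b, hb⟩ := hyo
      exact ⟨a + b + 1, by omega⟩
    obtain ⟨β, hβ⟩ : ∃ β, x - y = 2 * β := by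
      obtain ⟨a, ha⟩ := hxo
      obtain ⟨b, hb⟩ := hyo
      exact ⟨a - b, by omega⟩
    have hcf := cfg_even hj hm hN hy hxy hc h q hα hβ
    rcases huv with ⟨rfl, rfl⟩ | ⟨rfl, rfl⟩
    · rcases hr with hr | ⟨h4, hcm⟩
      · exact side_even hcf hmax hr
      · have hβo : Odd β := by
          obtain ⟨a, ha⟩ := hxo
          obtain ⟨b, hb⟩ := hyo
          obtain ⟨c, hc4⟩ := h4
          rw [Nat.odd_iff]
          omega
        exact side_even' hcf.swap hmax' hβo hcm q.oddb q.odda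
    · rcases hr with hr | ⟨h4, hcm⟩
      · exact side_even hcf.swap hmax' hr
      · have hαo : Odd α := by
          obtain ⟨a, ha⟩ := hxo
          obtain ⟨b, hb⟩ := hyo
          obtain ⟨c, hc4⟩ := h4
          rw [Nat.odd_iff]
          omega
        exact side_even' hcf hmax hαo hcm q.odda q.oddb
  · have hao : Odd (x + y) := par1 hzo
    have hbo : Odd (x - y) := by
      rw [Nat.odd_iff] at hao ⊢
      omega
    have hcf := cfg_odd hj hm hN hy hxy hc h q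
    rcases huv with ⟨rfl, rfl⟩ | ⟨rfl, rfl⟩
    · rcases hr with hr | ⟨h4, hcm⟩
      · exact side_odd hcf hmax hao hr
      · exfalso
        rw [Nat.odd_iff] at hao
        omega
    · rcases hr with hr | ⟨h4, hcm⟩
      · exact side_odd hcf.swap hmax' hbo hr
      · exfalso
        rw [Nat.odd_iff] at hbo
        omega

/-- bounds through the special parts of `x`, `y` -/
theorem main_xy {m N j x y z : ℕ} (hj : 2 ≤ j) (hm : m = 2 * j + 1) (hN : N = 4 * j + 3)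
    (hy : 0 < y) (hz : 0 < z) (h : x ^ (2 * m) = y ^ (2 * m) + z ^ N)
    (hg : Nat.gcd (Nat.gcd x y) z = 1) (hzo : Odd z)
    (hcm : Nat.Coprime (x + y) m ∨ Nat.Coprime (x - y) m) :
    (∀ x₁ y₁ D₁ D₂, x = x₁ * D₁ → y = y₁ * D₂ → Free N x₁ → Free N y₁ →
      x ^ 3 ≤ (N * (m * (D₁ * D₂))) ^ 2) ∧ ¬ Free N x ∧ ¬ Free N y := by
  have hmo : Odd m := ⟨j, hm⟩
  have hxy : y < x := y_lt_x hz h
  have hc : Nat.Coprime x y := coprime_xy (by omega) hg h
  obtain ⟨Ta, Tb, q⟩ := quot_exists hmo hy hxy hc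
  obtain ⟨par1, par2⟩ := parity (by omega) (by omega) hc h
  have hao : Odd (x + y) := par1 hzo
  have hbo : Odd (x - y) := by
    rw [Nat.odd_iff] at hao ⊢
    omega
  have hcf := cfg_odd (by omega) hm hN hy hxy hc h q
  have hx : 0 < x := by omega
  have h1 : ∀ x₁ y₁ D₁ D₂, x = x₁ * D₁ → y = y₁ * D₂ → Free N x₁ → Free N y₁ →
      x ^ 3 ≤ (N * (m * (D₁ * D₂))) ^ 2 := by
    intro x₁ y₁ D₁ D₂ hx₁ hy₁ hf₁ hf₂
    rcases hcm with hcm | hcm
    · exact (Nat.pow_le_pow_left (by omega) 3).trans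
        (bound_plus hy hxy hc q hcf hao hcm hx₁ hy₁ hf₁ hf₂)
    · exact bound_minus hy hxy hc q hcf hbo hcm hx₁ hy₁ hf₁ hf₂
  -- the lower bound
  have hlow : 3 ^ N < 2 * x * m := by
    obtain ⟨p, hp, hpa⟩ := Nat.exists_prime_and_dvd (n := x + y) (by omega)
    have hp3 : 3 ≤ p := by
      have h2 := hp.two_le
      rcases Nat.lt_or_ge p 3 with h3 | h3
      · have : p = 2 := by omega
        subst this
        exact absurd (even_iff_two_dvd.2 hpa) (Nat.not_even_iff_odd.2 hao)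
      · exact h3
    have hpb : ¬ p ∣ x - y := by
      intro h1
      have := hcf.gcdab p hp hpa h1
      omega
    have h2 := Nat.le_of_dvd (Nat.mul_pos (by omega) (by omega)) (hcf.low hp hpa hpb)
    have h3 := Nat.pow_le_pow_left hp3 N
    have h4 : (x + y) * m < 2 * x * m := Nat.mul_lt_mul_of_pos_right (by omega) (by omega)
    omega
  have hfin : ∀ D, D ≤ x → x ^ 3 ≤ (N * (m * D)) ^ 2 → False := by
    intro D hD h2
    have h3 : x ^ 2 * x ≤ x ^ 2 * (N * m) ^ 2 := by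
      calc x ^ 2 * x = x ^ 3 := by ring
        _ ≤ (N * (m * D)) ^ 2 := h2
        _ ≤ (N * (m * x)) ^ 2 :=
          Nat.pow_le_pow_left (Nat.mul_le_mul_left N (Nat.mul_le_mul_left m hD)) 2
        _ = x ^ 2 * (N * m) ^ 2 := by ring
    have h4 : x ≤ (N * m) ^ 2 := Nat.le_of_mul_le_mul_left h3 (pow_pos hx 2)
    have h5 := num1 j hj
    rw [← hm, ← hN] at h5
    have h6 : 2 * x * m ≤ 2 * m ^ 3 * N ^ 2 := by
      calc 2 * x * m ≤ 2 * (N * m) ^ 2 * m :=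
            Nat.mul_le_mul_right m (Nat.mul_le_mul_left 2 h4)
        _ = 2 * m ^ 3 * N ^ 2 := by ring
    omega
  have hone : Free N 1 := by
    intro r hr h1
    exact absurd (Nat.dvd_one.1 h1) hr.one_lt.ne'
  refine ⟨h1, fun hf => ?_, fun hf => ?_⟩
  · have h2 := h1 x 1 1 y (by ring) (by ring) hf hone
    rw [one_mul] at h2
    exact hfin y hxy.le h2
  · have h2 := h1 1 y x 1 (by ring) (by ring) hone hf
    rw [mul_one] at h2
    exact hfin x le_rfl h2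

theorem exists_special {N u : ℕ} (hN : 0 < N) (h : ¬ Free N u) :
    ∃ r : ℕ, r.Prime ∧ r ∣ u ∧ 1 < Nat.gcd (r - 1) N := by
  unfold Free at h
  push Not at h
  obtain ⟨r, hr, hru, hc⟩ := h
  refine ⟨r, hr, hru, ?_⟩
  have h0 : 0 < Nat.gcd (r - 1) N := Nat.gcd_pos_of_pos_right _ hN
  have h1 : Nat.gcd (r - 1) N ≠ 1 := fun h => hc h
  omega

end Pool.Agent.H27.BN
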