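import Pool.Agent.H27.BN.Main

set_option autoImplicit false

/-!
# Odd `z`: the parts of `x` and `y` without special prime factors are small
-/

namespace Pool.Agent.H27.BN

open Pool.Agent.H48.BN

theorem fact_pow_add {A B N r : ℕ} (hr : r.Prime) (hN : Odd N)
    (hc : Nat.Coprime (r - 1) N) (hA : ¬ r ∣ A) (hB : ¬ r ∣ B) (h : r ∣ A ^ N + B ^ N) :
    (A ^ N + B ^ N).factorization r = (A + B).factorization r + N.factorization r := by
  have : Fact r.Prime := ⟨hr⟩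
  have hN0 : N ≠ 0 := by
    rintro rfl
    exact absurd hN (by decide)
  have hA' : (A : ZMod r) ≠ 0 := fun h0 => hA ((ZMod.natCast_eq_zero_iff A r).1 h0)
  have hB' : (-(B : ZMod r)) ≠ 0 := fun h0 =>
    hB ((ZMod.natCast_eq_zero_iff B r).1 (neg_eq_zero.1 h0))
  have hA0 : 0 < A := Nat.pos_of_ne_zero (by rintro rfl; exact hA (dvd_zero r))
  have h1 : (A : ZMod r) ^ N = (-(B : ZMod r)) ^ N := by
    have h2 : ((A ^ N + B ^ N : ℕ) : ZMod r) = 0 := (ZMod.natCast_eq_zero_iff _ r).2 h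
    push_cast at h2
    rw [hN.neg_pow]
    exact eq_neg_of_add_eq_zero_left h2
  have hAeB : (A : ZMod r) = -(B : ZMod r) := eq_of_pow_eq hc hA' hB' h1
  have hdvd : r ∣ A + B := by
    rw [← ZMod.natCast_eq_zero_iff, Nat.cast_add, hAeB, neg_add_cancel]
  by_cases hrN : r ∣ N
  · have hodd : Odd r := Odd.of_dvd_nat hN hrN
    have h3 := padicValNat.pow_add_pow (p := r) hodd hdvd hA hN
    rw [Nat.factorization_def _ hr, Nat.factorization_def _ hr, Nat.factorization_def _ hr]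
    exact h3
  · have h4 : N.factorization r = 0 := Nat.factorization_eq_zero_of_not_dvd hrN
    obtain ⟨S, hS⟩ : A + B ∣ A ^ N + B ^ N := hN.nat_add_dvd_pow_add_pow A B
    have h5 : (S : ℤ) = ∑ i ∈ Finset.range N, (A : ℤ) ^ i * (-(B : ℤ)) ^ (N - 1 - i) := by
      have h6 := (Commute.geom_sum₂_mul (Commute.all (A : ℤ) (-(B : ℤ))) N)
      rw [hN.neg_pow, sub_neg_eq_add, sub_neg_eq_add] at h6
      have h7 : ((A : ℤ) + B) ≠ 0 := by positivity
      have h8 : (A : ℤ) ^ N + (B : ℤ) ^ N = (A + B) * S := by exact_mod_cast hS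
      rw [h8, mul_comm ((A : ℤ) + B) S] at h6
      exact (mul_right_cancel₀ h7 h6).symm
    have h6 : ¬ r ∣ S := by
      intro h7
      rw [← ZMod.natCast_eq_zero_iff] at h7
      have h9 : ((S : ℤ) : ZMod r) = 0 := by exact_mod_cast h7
      rw [h5] at h9
      push_cast at h9
      rw [← hAeB] at h9
      have h8 : ∀ i ∈ Finset.range N, (A : ZMod r) ^ i * (A : ZMod r) ^ (N - 1 - i) =
          (A : ZMod r) ^ (N - 1) := by
        intro i hi
        rw [Finset.mem_range] at hi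
        rw [← pow_add]
        congr 1
        omega
      rw [Finset.sum_congr rfl h8, Finset.sum_const, Finset.card_range, nsmul_eq_mul] at h9
      rcases mul_eq_zero.1 h9 with h9 | h9
      · exact hrN ((ZMod.natCast_eq_zero_iff N r).1 h9)
      · exact pow_ne_zero _ hA' h9
    have h8 : S ≠ 0 := by
      intro h9
      rw [h9] at h6
      exact h6 (dvd_zero r)
    rw [hS, Nat.factorization_mul (by omega) h8, Finsupp.add_apply, h4,
      Nat.factorization_eq_zero_of_not_dvd h6]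

/-- root extraction for sums -/
theorem root_dvd_add {A B N w : ℕ} (hN : Odd N) (hA0 : 0 < A)
    (hw : w ≠ 0) (hf : Free N w) (hA : Nat.Coprime w A) (hB : Nat.Coprime w B)
    (h : w ∣ A ^ N + B ^ N) : w ∣ N * (A + B) := by
  have hN0 : N ≠ 0 := by
    rintro rfl
    exact absurd hN (by decide)
  have h1 : A ^ N + B ^ N ≠ 0 := by positivity
  have h2 : A + B ≠ 0 := by omega
  rw [← Nat.factorization_prime_le_iff_dvd hw (mul_ne_zero hN0 h2)]
  intro r hr
  rw [Nat.factorization_mul hN0 h2, Finsupp.add_apply]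
  by_cases hrw : r ∣ w
  · have h3 : w.factorization r ≤ (A ^ N + B ^ N).factorization r :=
      (Nat.factorization_prime_le_iff_dvd hw h1).2 h r hr
    have hrA : ¬ r ∣ A := fun h5 => by
      have := Nat.dvd_gcd hrw h5
      rw [hA] at this
      exact hr.one_lt.ne' (Nat.dvd_one.1 this)
    have hrB : ¬ r ∣ B := fun h5 => by
      have := Nat.dvd_gcd hrw h5
      rw [hB] at this
      exact hr.one_lt.ne' (Nat.dvd_one.1 this)
    rw [fact_pow_add hr hN (hf r hr hrw) hrA hrB (hrw.trans h)] at h3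
    omega
  · rw [Nat.factorization_eq_zero_of_not_dvd hrw]
    exact Nat.zero_le _

/-- the data for odd `z` -/
theorem odd_data {m N x y z : ℕ} (hm : 0 < m) (hN : Odd N) (hy : 0 < y) (hz : 0 < z)
    (h : x ^ (2 * m) = y ^ (2 * m) + z ^ N) (hg : Nat.gcd (Nat.gcd x y) z = 1) (hzo : Odd z) :
    ∃ u v, 0 < u ∧ u < v ∧ u ^ N + v ^ N = 2 * x ^ m ∧ v ^ N = u ^ N + 2 * y ^ m ∧
      Nat.Coprime x u ∧ Nat.Coprime x v ∧ Nat.Coprime y u ∧ Nat.Coprime y v := by
  have hxy : y < x := y_lt_x hz h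
  have hc : Nat.Coprime x y := coprime_xy (by omega) hg h
  have hN0 : N ≠ 0 := by
    rintro rfl
    exact absurd hN (by decide)
  obtain ⟨⟨v, hv⟩, ⟨u, hu⟩⟩ := split_odd hm hxy hc hzo h
  have hlt : y ^ m < x ^ m := Nat.pow_lt_pow_left hxy hm.ne'
  have hym : 0 < y ^ m := pow_pos hy m
  have hu0 : 0 < u := by
    rcases Nat.eq_zero_or_pos u with h0 | h0
    · rw [h0, zero_pow hN0] at hu; omega
    · exact h0
  have huv : u < v := by
    have : u ^ N < v ^ N := by omega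
    exact lt_of_pow_lt_pow_left₀ N (Nat.zero_le _) this
  have key : ∀ w t, (w = x ∨ w = y) → (t ^ N = x ^ m + y ^ m ∨ t ^ N = x ^ m - y ^ m) →
      Nat.Coprime w t := by
    intro w t hw ht
    rw [Nat.coprime_iff_gcd_eq_one]
    by_contra hne
    obtain ⟨p, hp, hpd⟩ := Nat.exists_prime_and_dvd hne
    have h1 : p ∣ w := hpd.trans (Nat.gcd_dvd_left _ _)
    have h2 : p ∣ t ^ N := dvd_pow (hpd.trans (Nat.gcd_dvd_right _ _)) hN0
    have h3 : p ∣ Nat.gcd x y := by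
      rcases hw with rfl | rfl
      · have h4 : p ∣ w ^ m := dvd_pow h1 hm.ne'
        refine Nat.dvd_gcd h1 (hp.dvd_of_dvd_pow (n := m) ?_)
        rcases ht with ht | ht
        · rw [ht] at h2; exact (Nat.dvd_add_right h4).1 h2
        · rw [ht] at h2; exact (Nat.dvd_sub_iff_right hlt.le h4).1 h2
      · have h4 : p ∣ w ^ m := dvd_pow h1 hm.ne'
        refine Nat.dvd_gcd (hp.dvd_of_dvd_pow (n := m) ?_) h1
        rcases ht with ht | ht
        · rw [ht] at h2; exact (Nat.dvd_add_left h4).1 h2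
        · rw [ht] at h2; exact (Nat.dvd_sub_iff_left hlt.le h4).1 h2
    rw [hc] at h3
    exact hp.one_lt.ne' (Nat.dvd_one.1 h3)
  exact ⟨u, v, hu0, huv, by omega, by omega, key x u (Or.inl rfl) (Or.inr hu.symm),
    key x v (Or.inl rfl) (Or.inl hv.symm), key y u (Or.inr rfl) (Or.inr hu.symm),
    key y v (Or.inr rfl) (Or.inl hv.symm)⟩

/-- odd `z`: the divisors of `x`, `y` without special prime factors -/
theorem odd_bound {m N x y z : ℕ} (hm : 0 < m) (hN : Odd N) (hy : 0 < y) (hz : 0 < z)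
    (h : x ^ (2 * m) = y ^ (2 * m) + z ^ N) (hg : Nat.gcd (Nat.gcd x y) z = 1) (hzo : Odd z)
    {w d : ℕ} (hw : w = x ∨ w = y) (hd : d ∣ w) (hf : Free N d) :
    d ^ (m * N) ≤ (2 * N) ^ N * w ^ m := by
  obtain ⟨u, v, hu, huv, e1, e2, c1, c2, c3, c4⟩ := odd_data hm hN hy hz h hg hzo
  have hxy : y < x := y_lt_x hz h
  obtain ⟨k, rfl⟩ : ∃ k, N = k + 1 := by
    refine ⟨N - 1, ?_⟩
    rcases Nat.eq_zero_or_pos N with h0 | h0
    · rw [h0] at hN; exact absurd hN (by decide)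
    · omega
  have hw0 : 0 < w := by rcases hw with rfl | rfl <;> omega
  have hd0 : 0 < d := Nat.pos_of_dvd_of_pos hd hw0
  have hdm : d ^ m ∣ w ^ m := pow_dvd_pow_of_dvd hd m
  rw [pow_mul]
  rcases hw with rfl | rfl
  · have h1 : d ^ m ∣ v ^ (k + 1) + u ^ (k + 1) := by
      rw [add_comm, e1]; exact hdm.mul_left 2
    have h2 := root_dvd_add hN (by omega) (pow_pos hd0 m).ne' (hf.pow m)
      (Nat.Coprime.pow_left m (Nat.Coprime.coprime_dvd_left hd c2))
      (Nat.Coprime.pow_left m (Nat.Coprime.coprime_dvd_left hd c1)) h1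
    have h3 := Nat.le_of_dvd (by positivity) h2
    have h4 : (v + u) ^ (k + 1) ≤ 2 ^ k * (v ^ (k + 1) + u ^ (k + 1)) :=
      add_pow_le (Nat.zero_le _) (Nat.zero_le _) (k + 1)
    calc (d ^ m) ^ (k + 1) ≤ ((k + 1) * (v + u)) ^ (k + 1) := Nat.pow_le_pow_left h3 _
      _ = (k + 1) ^ (k + 1) * (v + u) ^ (k + 1) := mul_pow _ _ _
      _ ≤ (k + 1) ^ (k + 1) * (2 ^ k * (v ^ (k + 1) + u ^ (k + 1))) :=
        Nat.mul_le_mul_left _ h4
      _ = (2 * (k + 1)) ^ (k + 1) * w ^ m := by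
        rw [add_comm (v ^ (k + 1)), e1, mul_pow 2 (k + 1), pow_succ 2 k]; ring
  · have h1 : d ^ m ∣ 1 * (v ^ (k + 1) - u ^ (k + 1)) := by
      rw [one_mul, e2, Nat.add_sub_cancel_left]; exact hdm.mul_left 2
    have h2 := root_dvd hN huv one_ne_zero (pow_pos hd0 m).ne' (hf.pow m)
      (Nat.Coprime.pow_left m (Nat.Coprime.coprime_dvd_left hd c4))
      (Nat.Coprime.pow_left m (Nat.Coprime.coprime_dvd_left hd c3)) h1
    rw [one_mul] at h2
    have h5 : 0 < v - u := by omega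
    have h3 := Nat.le_of_dvd (Nat.mul_pos (by omega) h5) h2
    have h4 : (v - u) ^ (k + 1) ≤ 2 * w ^ m := by
      have h6 : (v - u) ^ (k + 1) + u ^ (k + 1) ≤ (v - u + u) ^ (k + 1) :=
        pow_add_pow_le (Nat.zero_le _) (Nat.zero_le _) (by omega)
      rw [Nat.sub_add_cancel huv.le] at h6
      omega
    have h7 : 2 ≤ 2 ^ (k + 1) := by
      calc 2 = 2 ^ 1 := rfl
        _ ≤ 2 ^ (k + 1) := Nat.pow_le_pow_right (by norm_num) (by omega)
    calc (d ^ m) ^ (k + 1) ≤ ((k + 1) * (v - u)) ^ (k + 1) := Nat.pow_le_pow_left h3 _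
      _ = (k + 1) ^ (k + 1) * (v - u) ^ (k + 1) := mul_pow _ _ _
      _ ≤ (k + 1) ^ (k + 1) * (2 * w ^ m) := Nat.mul_le_mul_left _ h4
      _ ≤ (k + 1) ^ (k + 1) * (2 ^ (k + 1) * w ^ m) :=
        Nat.mul_le_mul_left _ (Nat.mul_le_mul_right _ h7)
      _ = (2 * (k + 1)) ^ (k + 1) * w ^ m := by rw [mul_pow 2 (k + 1)]; ring

theorem num4 : ∀ m : ℕ, 7 ≤ m → 2 * (2 * m + 1) ≤ 2 ^ (m - 2) := by
  intro m hm
  induction m, hm using Nat.le_induction with
  | base => norm_num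
  | succ m hm ih =>
    have e : 2 ^ (m + 1 - 2) = 2 * 2 ^ (m - 2) := by
      rw [show m + 1 - 2 = (m - 2) + 1 by omega, pow_succ]; ring
    omega

theorem num5 {m : ℕ} (hm : m = 5 ∨ 7 ≤ m) :
    (2 * (2 * m + 1)) ^ (2 * m + 1) < 2 ^ (m * (2 * m)) := by
  rcases hm with rfl | hm
  · norm_num
  · calc (2 * (2 * m + 1)) ^ (2 * m + 1) ≤ (2 ^ (m - 2)) ^ (2 * m + 1) :=
        Nat.pow_le_pow_left (num4 m hm) _
      _ = 2 ^ ((m - 2) * (2 * m + 1)) := by rw [← pow_mul]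
      _ < 2 ^ (m * (2 * m)) := by
        apply Nat.pow_lt_pow_right (by norm_num)
        obtain ⟨k, rfl⟩ : ∃ k, m = k + 2 := ⟨m - 2, by omega⟩
        rw [Nat.add_sub_cancel]
        nlinarith

/-- odd `z`: `x` and `y` have special prime factors -/
theorem odd_special {m N x y z : ℕ} (hm : m = 5 ∨ 7 ≤ m) (hN : N = 2 * m + 1) (hy : 0 < y)
    (hz : 0 < z) (h : x ^ (2 * m) = y ^ (2 * m) + z ^ N) (hg : Nat.gcd (Nat.gcd x y) z = 1)
    (hzo : Odd z) {w : ℕ} (hw : w = x ∨ w = y) : ¬ Free N w := by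
  intro hf
  have hm0 : 0 < m := by omega
  have hNo : Odd N := ⟨m, hN⟩
  have h1 := odd_bound hm0 hNo hy hz h hg hzo hw dvd_rfl hf
  obtain ⟨u, v, hu, huv, e1, e2, -⟩ := odd_data hm0 hNo hy hz h hg hzo
  have hxy : y < x := y_lt_x hz h
  have hy2 : 2 ≤ y := by
    by_contra hlt
    have hy1 : y = 1 := by omega
    subst hy1
    rw [one_pow] at e2
    have h3 := sub_mul_le (N := N) huv.le (by omega)
    have h4 : 1 * 2 ^ (N - 1) ≤ (v - u) * v ^ (N - 1) :=
      Nat.mul_le_mul (by omega) (Nat.pow_le_pow_left (by omega) _)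
    have h5 : 2 ^ 2 ≤ 2 ^ (N - 1) := Nat.pow_le_pow_right (by norm_num) (by omega)
    omega
  have hw2 : 2 ≤ w := by rcases hw with rfl | rfl <;> omega
  have h2 : w ^ (m * (2 * m)) * w ^ m ≤ (2 * (2 * m + 1)) ^ (2 * m + 1) * w ^ m := by
    calc w ^ (m * (2 * m)) * w ^ m = w ^ (m * N) := by
          rw [← pow_add, hN]; congr 1
      _ ≤ (2 * N) ^ N * w ^ m := h1
      _ = (2 * (2 * m + 1)) ^ (2 * m + 1) * w ^ m := by rw [hN]
  have h3 := Nat.le_of_mul_le_mul_right h2 (pow_pos (by omega) m)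
  have h4 : 2 ^ (m * (2 * m)) ≤ w ^ (m * (2 * m)) := Nat.pow_le_pow_left hw2 _
  have h5 := num5 hm
  omega

end Pool.Agent.H27.BN
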