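import Pool.Agent.H27.BN.Main

set_option autoImplicit false

/-!
# `n / 2` a prime power
-/

namespace Pool.Agent.H27.BN

open Pool.Agent.H48.BN

theorem pp_coprime {m x y p k : ℕ} (hp : p.Prime) (hm : p ^ k = m) (hp2 : p ≠ 2)
    (hc : Nat.Coprime x y) (hxy : y < x) : Nat.Coprime (x + y) m ∨ Nat.Coprime (x - y) m := by
  by_cases h : p ∣ x + y
  · right
    rw [← hm]
    refine Nat.Coprime.pow_right k ((Nat.Prime.coprime_iff_not_dvd hp).2 fun h2 => hp2 ?_).symm
    exact prime_eq_two (m := 1) hp hc hxy.le (by simpa using h) (by simpa using h2)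
  · left
    rw [← hm]
    exact Nat.Coprime.pow_right k ((Nat.Prime.coprime_iff_not_dvd hp).2 h).symm

theorem pp_dvd {m x y z p k N : ℕ} (hp : p.Prime) (hm : p ^ k = m) (hxy : y < x)
    (h : x ^ (2 * m) = y ^ (2 * m) + z ^ N) (hN : 0 < N) (hpz : p ∣ z) :
    p ∣ x + y ∨ p ∣ x - y := by
  have : Fact p.Prime := ⟨hp⟩
  have h1 := prod_eq hxy h
  have h2 : p ∣ (x ^ m + y ^ m) * (x ^ m - y ^ m) := by
    rw [h1]; exact dvd_pow hpz hN.ne'
  have hle : y ^ m ≤ x ^ m := Nat.pow_le_pow_left hxy.le m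
  rcases (hp.dvd_mul).1 h2 with h3 | h3
  · left
    rw [← ZMod.natCast_eq_zero_iff] at h3 ⊢
    push_cast at h3 ⊢
    rw [← hm, ZMod.pow_card_pow, ZMod.pow_card_pow] at h3
    exact h3
  · right
    rw [← ZMod.natCast_eq_zero_iff] at h3 ⊢
    rw [Nat.cast_sub hle] at h3
    rw [Nat.cast_sub hxy.le]
    push_cast at h3
    rw [← hm, ZMod.pow_card_pow, ZMod.pow_card_pow] at h3
    exact h3

/-- `n / 2` a prime power: `z` has a special prime factor if it is not coprime to `n` -/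
theorem main_pp {m N j x y z : ℕ} (hj : 1 ≤ j) (hm : m = 2 * j + 1) (hN : N = 4 * j + 3)
    (hy : 0 < y) (hz : 0 < z) (h : x ^ (2 * m) = y ^ (2 * m) + z ^ N)
    (hg : Nat.gcd (Nat.gcd x y) z = 1) (hpp : IsPrimePow m) (hzn : 1 < Nat.gcd z (2 * m)) :
    ¬ Free N z := by
  obtain ⟨p, k, hp, hk, hpk⟩ := (isPrimePow_nat_iff m).1 hpp
  have hmo : Odd m := ⟨j, hm⟩
  have hp2 : p ≠ 2 := by
    rintro rfl
    have : 2 ∣ m := by rw [← hpk]; exact dvd_pow_self 2 hk.ne'
    exact (Nat.not_even_iff_odd.2 hmo) (even_iff_two_dvd.2 this)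
  have hxy : y < x := y_lt_x hz h
  have hc : Nat.Coprime x y := coprime_xy (by omega) hg h
  obtain ⟨Ta, Tb, q⟩ := quot_exists hmo hy hxy hc
  have hall : ∀ u, p ∣ u → ∀ q, q.Prime → q ∣ m → q ∣ u := by
    intro u hu q hq hqm
    rw [← hpk] at hqm
    have := (Nat.prime_dvd_prime_iff_eq hq hp).1 (hq.dvd_of_dvd_pow hqm)
    rw [this]; exact hu
  have huz : ∀ u v, ((u = x + y ∧ v = x - y) ∨ (u = x - y ∧ v = x + y)) → ¬ Free N u →
      ¬ Free N z := by
    intro u v huv hf hfz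
    apply hf
    intro r hr hru
    apply hfz r hr
    apply hr.dvd_of_dvd_pow (n := N)
    rw [← prod_eq hxy h, q.hTa, q.hTb]
    rcases huv with ⟨rfl, -⟩ | ⟨rfl, -⟩
    · exact (hru.mul_right _).mul_right _
    · exact (hru.mul_right _).mul_left _
  rcases Nat.even_or_odd z with hze | hzo
  · obtain ⟨hxo, hyo⟩ := (parity (by omega) (by omega) hc h).2 hze
    -- one of the two is divisible by four
    have key : ∀ u v, ((u = x + y ∧ v = x - y) ∨ (u = x - y ∧ v = x + y)) → 4 ∣ u →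
        ¬ Free N z := by
      intro u v huv h4
      by_cases hpv : p ∣ v
      · have huv' : (v = x + y ∧ u = x - y) ∨ (v = x - y ∧ u = x + y) := by tauto
        exact huz v u huv' (main_side hj hm hN hy hz h hg huv' (Or.inl (hall v hpv))).2
      · have hcv : Nat.Coprime v m := by
          rw [← hpk]
          exact Nat.Coprime.pow_right k ((Nat.Prime.coprime_iff_not_dvd hp).2 hpv).symm
        exact huz u v huv (main_side hj hm hN hy hz h hg huv (Or.inr ⟨h4, hcv⟩)).2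
    by_cases h4 : 4 ∣ x + y
    · exact key _ _ (Or.inl ⟨rfl, rfl⟩) h4
    · refine key _ _ (Or.inr ⟨rfl, rfl⟩) ?_
      obtain ⟨a, ha⟩ := hxo
      obtain ⟨b, hb⟩ := hyo
      omega
  · obtain ⟨q, hq, hqd⟩ := Nat.exists_prime_and_dvd (n := Nat.gcd z (2 * m)) (by omega)
    have hqz : q ∣ z := hqd.trans (Nat.gcd_dvd_left _ _)
    have hq2 : q ≠ 2 := by
      rintro rfl
      exact (Nat.not_even_iff_odd.2 hzo) (even_iff_two_dvd.2 hqz)
    have hqm : q ∣ m := by
      rcases (hq.dvd_mul).1 (hqd.trans (Nat.gcd_dvd_right _ _)) with h1 | h1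
      · exact absurd ((Nat.prime_dvd_prime_iff_eq hq Nat.prime_two).1 h1) hq2
      · exact h1
    rw [← hpk] at hqm
    have hqp := (Nat.prime_dvd_prime_iff_eq hq hp).1 (hq.dvd_of_dvd_pow hqm)
    subst hqp
    rcases pp_dvd hp hpk hxy h (by omega) hqz with h1 | h1
    · exact huz _ _ (Or.inl ⟨rfl, rfl⟩)
        (main_side hj hm hN hy hz h hg (Or.inl ⟨rfl, rfl⟩) (Or.inl (hall _ h1))).2
    · exact huz _ _ (Or.inr ⟨rfl, rfl⟩)
        (main_side hj hm hN hy hz h hg (Or.inr ⟨rfl, rfl⟩) (Or.inl (hall _ h1))).2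

end Pool.Agent.H27.BN
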