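import Mathlib

set_option autoImplicit false

/-!
# Extraction of `N`-th roots modulo numbers without prime factor `r` with `gcd (r - 1, N) > 1`
-/

namespace Pool.Agent.H27.BN

/-- no prime factor `r` of `u` has a common factor of `r - 1` and `N` -/
def Free (N u : ℕ) : Prop := ∀ r : ℕ, r.Prime → r ∣ u → Nat.Coprime (r - 1) N

theorem Free.of_dvd {N u v : ℕ} (h : Free N v) (huv : u ∣ v) : Free N u :=
  fun r hr hru => h r hr (hru.trans huv)

theorem Free.mul {N u v : ℕ} (hu : Free N u) (hv : Free N v) : Free N (u * v) := by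
  intro r hr h
  rcases (Nat.Prime.dvd_mul hr).1 h with h | h
  · exact hu r hr h
  · exact hv r hr h

theorem Free.pow {N u : ℕ} (hu : Free N u) (k : ℕ) : Free N (u ^ k) :=
  fun r hr h => hu r hr (hr.dvd_of_dvd_pow h)

theorem eq_of_pow_eq {r N : ℕ} [hr : Fact r.Prime] (hc : Nat.Coprime (r - 1) N) {a b : ZMod r}
    (ha : a ≠ 0) (hb : b ≠ 0) (h : a ^ N = b ^ N) : a = b := by
  have h1 : (a / b) ^ N = 1 := by
    rw [div_pow, h, div_self (pow_ne_zero N hb)]
  have h2 : (a / b) ^ (r - 1) = 1 := ZMod.pow_card_sub_one_eq_one (div_ne_zero ha hb)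
  have h3 : (a / b) ^ (Nat.gcd (r - 1) N) = 1 := pow_gcd_eq_one.2 ⟨h2, h1⟩
  rw [hc, pow_one] at h3
  exact (div_eq_one_iff_eq hb).1 h3

theorem fact_pow_sub {A B N r : ℕ} (hr : r.Prime) (hN : Odd N) (hAB : B < A)
    (hc : Nat.Coprime (r - 1) N) (hA : ¬ r ∣ A) (hB : ¬ r ∣ B) (h : r ∣ A ^ N - B ^ N) :
    (A ^ N - B ^ N).factorization r = (A - B).factorization r + N.factorization r := by
  have : Fact r.Prime := ⟨hr⟩
  have hN0 : N ≠ 0 := by
    rintro rfl
    exact absurd hN (by decide)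
  have hpow : B ^ N < A ^ N := Nat.pow_lt_pow_left hAB hN0
  have hA' : (A : ZMod r) ≠ 0 := fun h0 => hA ((ZMod.natCast_eq_zero_iff A r).1 h0)
  have hB' : (B : ZMod r) ≠ 0 := fun h0 => hB ((ZMod.natCast_eq_zero_iff B r).1 h0)
  have h1 : (A : ZMod r) ^ N = (B : ZMod r) ^ N := by
    have h2 : ((A ^ N - B ^ N : ℕ) : ZMod r) = 0 := (ZMod.natCast_eq_zero_iff _ r).2 h
    rw [Nat.cast_sub hpow.le, Nat.cast_pow, Nat.cast_pow, sub_eq_zero] at h2
    exact h2
  have hAeB : (A : ZMod r) = (B : ZMod r) := eq_of_pow_eq hc hA' hB' h1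
  have hdvd : r ∣ A - B := by
    rw [← ZMod.natCast_eq_zero_iff, Nat.cast_sub hAB.le, hAeB, sub_self]
  by_cases hrN : r ∣ N
  · have hodd : Odd r := Odd.of_dvd_nat hN hrN
    have h3 := padicValNat.pow_sub_pow (p := r) hodd hAB hdvd hA hN0
    rw [Nat.factorization_def _ hr, Nat.factorization_def _ hr, Nat.factorization_def _ hr]
    exact h3
  · have h4 : N.factorization r = 0 := Nat.factorization_eq_zero_of_not_dvd hrN
    have h5 : A ^ N - B ^ N = (∑ i ∈ Finset.range N, A ^ i * B ^ (N - 1 - i)) * (A - B) := by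
      zify [hpow.le, hAB.le]
      exact (Commute.geom_sum₂_mul (Commute.all (A : ℤ) (B : ℤ)) N).symm
    have h6 : ¬ r ∣ ∑ i ∈ Finset.range N, A ^ i * B ^ (N - 1 - i) := by
      intro h7
      rw [← ZMod.natCast_eq_zero_iff] at h7
      push_cast at h7
      rw [hAeB] at h7
      have h8 : ∀ i ∈ Finset.range N, (B : ZMod r) ^ i * (B : ZMod r) ^ (N - 1 - i) =
          (B : ZMod r) ^ (N - 1) := by
        intro i hi
        rw [Finset.mem_range] at hi
        rw [← pow_add]
        congr 1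
        omega
      rw [Finset.sum_congr rfl h8, Finset.sum_const, Finset.card_range, nsmul_eq_mul] at h7
      rcases mul_eq_zero.1 h7 with h9 | h9
      · exact hrN ((ZMod.natCast_eq_zero_iff N r).1 h9)
      · exact pow_ne_zero _ hB' h9
    have h7 : A - B ≠ 0 := by omega
    have h8 : (∑ i ∈ Finset.range N, A ^ i * B ^ (N - 1 - i)) ≠ 0 := by
      intro h9
      rw [h9] at h6
      exact h6 (dvd_zero r)
    rw [h5, Nat.factorization_mul h8 h7, Finsupp.add_apply, h4,
      Nat.factorization_eq_zero_of_not_dvd h6]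
    ring

/-- root extraction -/
theorem root_dvd {A B N w t : ℕ} (hN : Odd N) (hAB : B < A) (ht : t ≠ 0)
    (hw : w ≠ 0) (hf : Free N w) (hA : Nat.Coprime w A) (hB : Nat.Coprime w B)
    (h : w ∣ t * (A ^ N - B ^ N)) : w ∣ t * (N * (A - B)) := by
  have hN0 : N ≠ 0 := by
    rintro rfl
    exact absurd hN (by decide)
  have hpow : B ^ N < A ^ N := Nat.pow_lt_pow_left hAB hN0
  have h1 : A ^ N - B ^ N ≠ 0 := by omega
  have h2 : A - B ≠ 0 := by omega
  rw [← Nat.factorization_prime_le_iff_dvd hw (mul_ne_zero ht (mul_ne_zero hN0 h2))]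
  intro r hr
  rw [Nat.factorization_mul ht (mul_ne_zero hN0 h2), Nat.factorization_mul hN0 h2,
    Finsupp.add_apply, Finsupp.add_apply]
  by_cases hrw : r ∣ w
  · have h3 : w.factorization r ≤ (t * (A ^ N - B ^ N)).factorization r :=
      (Nat.factorization_prime_le_iff_dvd hw (mul_ne_zero ht h1)).2 h r hr
    rw [Nat.factorization_mul ht h1, Finsupp.add_apply] at h3
    by_cases h4 : r ∣ A ^ N - B ^ N
    · have hrA : ¬ r ∣ A := fun h5 => by
        have := Nat.dvd_gcd hrw h5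
        rw [hA] at this
        exact hr.one_lt.ne' (Nat.dvd_one.1 this)
      have hrB : ¬ r ∣ B := fun h5 => by
        have := Nat.dvd_gcd hrw h5
        rw [hB] at this
        exact hr.one_lt.ne' (Nat.dvd_one.1 this)
      rw [fact_pow_sub hr hN hAB (hf r hr hrw) hrA hrB h4] at h3
      omega
    · rw [Nat.factorization_eq_zero_of_not_dvd h4] at h3
      omega
  · rw [Nat.factorization_eq_zero_of_not_dvd hrw]
    exact Nat.zero_le _

/-- `(A - B) A ^ (N - 1) ≤ A ^ N - B ^ N` -/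
theorem sub_mul_le {A B N : ℕ} (hAB : B ≤ A) (hN : 0 < N) :
    (A - B) * A ^ (N - 1) ≤ A ^ N - B ^ N := by
  obtain ⟨k, rfl⟩ : ∃ k, N = k + 1 := ⟨N - 1, by omega⟩
  have h1 : B ^ k ≤ A ^ k := Nat.pow_le_pow_left hAB k
  have h2 : B ^ (k + 1) ≤ B * A ^ k := by
    rw [pow_succ, mul_comm]
    exact Nat.mul_le_mul_left B h1
  have h3 : (A - B) * A ^ k = A ^ (k + 1) - B * A ^ k := by
    rw [Nat.sub_mul, pow_succ, mul_comm (A ^ k) A]
  rw [Nat.add_sub_cancel, h3]
  omega

end Pool.Agent.H27.BN
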