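import Pool.Agent.H27.BN.Main
import Pool.Agent.H48.BN.Residue

set_option autoImplicit false

/-!
# Power residues modulo `x + y` and `x - y`
-/

namespace Pool.Agent.H27.BN

open Pool.Agent.H48.BN

theorem PN_parity (a b j : ℕ) : ∃ R, (PN a b j).1 + (PN a b j).2 = 2 * R := by
  induction j with
  | zero => exact ⟨1, rfl⟩
  | succ j ih =>
    obtain ⟨R, hR⟩ := ih
    refine ⟨(a + b) * R + b * (PN a b j).2 + a * (PN a b j).1, ?_⟩
    rw [PN_succ]
    simp only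
    have : (a + b) * (PN a b j).1 + (a + b) * (PN a b j).2 = 2 * ((a + b) * R) := by
      rw [← mul_add, hR]; ring
    linarith

theorem KN_four (a b j : ℕ) : ∃ K, KN a b j = 4 * K := by
  induction j with
  | zero => exact ⟨0, rfl⟩
  | succ j ih =>
    obtain ⟨K, hK⟩ := ih
    obtain ⟨R, hR⟩ := PN_parity a b j
    refine ⟨(a + b) * K + R + (j + 1) * (PN a b j).1, ?_⟩
    have e : KN a b (j + 1) =
      (a + b) * KN a b j + 2 * (PN a b j).2 + 2 * (2 * j + 3) * (PN a b j).1 := rfl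
    rw [e, hK]
    linarith

section

variable {m N j z e g a b α β Ta Tb : ℕ}

theorem Cfg.mod_odd (h : Cfg m N j z 1 (4 ^ j) a b a b Ta Tb) (hao : Odd a) :
    m * Tb ≡ Ta [MOD a ^ 2] := by
  have hK := PN_K (a ^ 2) (b ^ 2) j
  rw [← h.hP, ← h.hQ, ← h.hm] at hK
  have h1 : 4 ^ j * (m * Tb) ≡ 4 ^ j * Ta [MOD a ^ 2] := by
    have h2 : 4 ^ j * (m * Tb) = 4 ^ j * Ta + a ^ 2 * KN (a ^ 2) (b ^ 2) j := by rw [← hK]; ring
    rw [h2]
    exact Nat.add_modulus_mul_modEq_iff.2 rfl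
  refine Nat.ModEq.cancel_left_of_coprime ?_ h1
  have h2 : Nat.Coprime a 4 := by
    have : Nat.Coprime a 2 := hao.coprime_two_right
    exact Nat.Coprime.pow_right 2 this
  exact (Nat.Coprime.pow_left 2 (Nat.Coprime.pow_right j h2))

theorem Cfg.mod_even (h : Cfg m N j z 2 1 a b α β Ta Tb) : m * Tb ≡ Ta [MOD a ^ 2] := by
  have hK := PN_K (α ^ 2) (β ^ 2) j
  rw [← h.hP, ← h.hQ, ← h.hm] at hK
  obtain ⟨K, hK4⟩ := KN_four (α ^ 2) (β ^ 2) j
  have h2 : m * Tb = Ta + a ^ 2 * K := by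
    rw [hK4] at hK
    have : m * (1 * Tb) = 1 * Ta + (2 * α) ^ 2 * K := by rw [hK]; ring
    rw [one_mul, one_mul] at this
    rw [this, h.ha]
  rw [h2]
  exact Nat.add_modulus_mul_modEq_iff.2 rfl

/-- the part of `Ta` made of the common primes of `a` and `m` -/
theorem Cfg.Ta_part (h : Cfg m N j z e g a b α β Ta Tb) {k l : ℕ} (hkl : m = k * l)
    (hk : Nat.Coprime k a) (hl : ∀ p, p.Prime → p ∣ l → p ∣ a) :
    ∃ A, Ta = l * A ^ N ∧ Nat.Coprime A (a * (b * Tb)) := by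
  have hN0 : N ≠ 0 := by have := h.hN; omega
  have hm0 := h.mpos
  have hl0 : l ≠ 0 := by rintro rfl; simp at hkl; omega
  have hk0 : k ≠ 0 := by rintro rfl; simp at hkl; omega
  have hval : ∀ p, p.Prime → p ∣ a → Ta.factorization p = l.factorization p := by
    intro p hp hpa
    rw [h.vala p hp hpa, hkl, Nat.factorization_mul hk0 hl0, Finsupp.add_apply]
    have : ¬ p ∣ k := by
      intro h1
      have := Nat.dvd_gcd h1 hpa
      rw [hk] at this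
      exact hp.one_lt.ne' (Nat.dvd_one.1 this)
    rw [Nat.factorization_eq_zero_of_not_dvd this, zero_add]
  have hdvd : l ∣ Ta := by
    rw [← Nat.factorization_prime_le_iff_dvd hl0 h.Tapos.ne']
    intro p hp
    by_cases hpl : p ∣ l
    · rw [hval p hp (hl p hp hpl)]
    · rw [Nat.factorization_eq_zero_of_not_dvd hpl]
      exact Nat.zero_le _
  obtain ⟨T, hT⟩ := hdvd
  have hT0 : T ≠ 0 := by
    rintro rfl
    have := h.Tapos
    rw [hT] at this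
    simp at this
  have key : ∀ p, p.Prime → p ∣ a → ¬ p ∣ T := by
    intro p hp hpa hpT
    have h1 := hval p hp hpa
    rw [hT, Nat.factorization_mul hl0 hT0, Finsupp.add_apply] at h1
    have h2 := (hp.dvd_iff_one_le_factorization hT0).1 hpT
    omega
  have hca : Nat.Coprime T a := by
    rw [Nat.coprime_iff_gcd_eq_one]
    by_contra hne
    obtain ⟨p, hp, hpd⟩ := Nat.exists_prime_and_dvd hne
    exact key p hp (hpd.trans (Nat.gcd_dvd_right _ _)) (hpd.trans (Nat.gcd_dvd_left _ _))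
  have hcl : Nat.Coprime T l := by
    rw [Nat.coprime_iff_gcd_eq_one]
    by_contra hne
    obtain ⟨p, hp, hpd⟩ := Nat.exists_prime_and_dvd hne
    exact key p hp (hl p hp (hpd.trans (Nat.gcd_dvd_right _ _))) (hpd.trans (Nat.gcd_dvd_left _ _))
  have hcb : Nat.Coprime T (b * Tb) :=
    Nat.Coprime.coprime_dvd_left ⟨l, by rw [hT]; ring⟩ h.copa
  have h1 : Nat.Coprime T (l * (a * (b * Tb))) :=
    Nat.Coprime.mul_right hcl (Nat.Coprime.mul_right hca hcb)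
  obtain ⟨B, hB⟩ := nat_pow_of_mul (c := z) (k := N) h1 (by rw [← h.prod, hT]; ring)
  refine ⟨B, by rw [hT, hB], ?_⟩
  have h2 : Nat.Coprime T (a * (b * Tb)) := Nat.Coprime.mul_right hca hcb
  rw [hB] at h2
  exact Nat.Coprime.coprime_dvd_left (dvd_pow_self B hN0) h2

/-- `m l' ≡ l t ^ N` modulo `a²` -/
theorem Cfg.half_residue (h : Cfg m N j z e g a b α β Ta Tb) (hmod : m * Tb ≡ Ta [MOD a ^ 2])
    {k l k' l' : ℕ} (hkl : m = k * l)
    (hk : Nat.Coprime k a) (hl : ∀ p, p.Prime → p ∣ l → p ∣ a) (hkl' : m = k' * l')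
    (hk' : Nat.Coprime k' b) (hl' : ∀ p, p.Prime → p ∣ l' → p ∣ b) :
    ∃ t : ℕ, l * t ^ N ≡ m * l' [MOD a ^ 2] := by
  obtain ⟨A, hA, -⟩ := h.Ta_part hkl hk hl
  obtain ⟨B, hB, hcB⟩ := h.swap.Ta_part hkl' hk' hl'
  have hcB2 : Nat.Coprime B (a ^ 2) :=
    Nat.Coprime.pow_right 2 (Nat.Coprime.coprime_dvd_right ⟨b * Ta, by ring⟩ hcB)
  have ha0 : 0 < a ^ 2 := pow_pos h.apos 2
  have hne : NeZero (a ^ 2) := ⟨ha0.ne'⟩
  have hBu : IsUnit (B : ZMod (a ^ 2)) := (ZMod.isUnit_iff_coprime B _).2 hcB2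
  obtain ⟨c, hc⟩ := hBu.exists_right_inv
  have h1 : (m : ZMod (a ^ 2)) * (l' * (B : ZMod (a ^ 2)) ^ N) = l * (A : ZMod (a ^ 2)) ^ N := by
    have h2 := (ZMod.natCast_eq_natCast_iff _ _ _).2 hmod
    rw [hA, hB] at h2
    push_cast at h2
    exact h2
  refine ⟨((A : ZMod (a ^ 2)) * c).val, ?_⟩
  rw [← ZMod.natCast_eq_natCast_iff]
  push_cast
  have hc' : (B : ZMod (a ^ 2)) ^ N * c ^ N = 1 := by rw [← mul_pow, hc, one_pow]
  rw [ZMod.natCast_zmod_val, mul_pow]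
  linear_combination (-c ^ N) * h1 + (m * l') * hc'

theorem unit_sq {G : Type*} [CommGroup G] {g l b δ : G} {i j s c N : ℕ} (hN : N = 4 * j + 3)
    (hi : 2 * i + c = s * N)
    (h : g ^ i * l ^ (2 * j + 1) * b ^ N = δ ^ N) : ∃ t : G, t ^ N = g ^ c * l := by
  refine ⟨g ^ s * l * b ^ 2 * (δ ^ 2)⁻¹, ?_⟩
  have h1 : (δ ^ 2) ^ N = g ^ (2 * i) * l ^ (4 * j + 2) * (b ^ 2) ^ N := by
    rw [← pow_mul δ, mul_comm 2 N, pow_mul δ, ← h, mul_pow, mul_pow, ← pow_mul g, ← pow_mul l,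
      ← pow_mul b, ← pow_mul b, mul_comm i 2, mul_comm N 2]
    congr 3
    ring
  have h2 : l ^ N = l ^ (4 * j + 2) * l := by
    rw [hN, show 4 * j + 3 = (4 * j + 2) + 1 by ring, pow_succ l]
  rw [mul_pow, mul_pow, mul_pow, inv_pow, h1, ← pow_mul g, ← hi, pow_add, h2]
  rw [mul_inv_eq_iff_eq_mul]
  generalize g ^ (2 * i) = A
  generalize g ^ c = B
  generalize l ^ (4 * j + 2) = C
  generalize (b ^ 2) ^ N = D
  rw [mul_comm A B, mul_assoc B A, mul_assoc B, mul_assoc B, mul_comm C l, ← mul_assoc A l C,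
    mul_comm A l, mul_assoc l A C, mul_assoc l]

/-- the power residue coming from `b` -/
theorem Cfg.side_residue (h : Cfg m N j z e g a b α β Ta Tb) {E c i s cc l' B w : ℕ}
    (hTb : Tb = l' * B ^ N) (hB : Nat.Coprime B w) (hE : E * β * l' = c ^ N)
    (hi : g * E ^ (2 * j) = 2 ^ i) (h2i : 2 * i + cc = s * N) (hw : Odd w) (hwα : w ∣ α)
    (hlw : Nat.Coprime l' w) : ∃ t : ℕ, t ^ N ≡ 2 ^ cc * l' [MOD w ^ 2] := by
  have hN0 : N ≠ 0 := by have := h.hN; omega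
  have hm := h.hm
  obtain ⟨α', hα'⟩ := hwα
  have key : 2 ^ i * l' ^ (2 * j + 1) * B ^ N = (c ^ (2 * j)) ^ N +
      w ^ 2 * (α' ^ 2 * ((E * l') ^ (2 * j) * WN (β ^ 2) (α ^ 2) j)) := by
    have h2 := h.hQ
    rw [hTb, ← show (PN (β ^ 2) (α ^ 2) j).1 = (PN (α ^ 2) (β ^ 2) j).2 by rw [PN_swap],
      PN_W] at h2
    have h3 : (E * l') ^ (2 * j) * (g * (l' * B ^ N)) =
        (c ^ (2 * j)) ^ N + (E * l') ^ (2 * j) * (α ^ 2 * WN (β ^ 2) (α ^ 2) j) := by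
      rw [h2, mul_add, ← pow_mul c, mul_comm (2 * j) N, pow_mul c, ← hE]
      congr 1
      rw [← pow_mul β, ← mul_pow]
      congr 1
      ring
    rw [← hi, hα', mul_pow w] at *
    calc g * E ^ (2 * j) * l' ^ (2 * j + 1) * B ^ N
        = (E * l') ^ (2 * j) * (g * (l' * B ^ N)) := by rw [mul_pow]; ring
      _ = _ := by rw [h3]; ring
  have hw0 : 0 < w ^ 2 := pow_pos hw.pos 2
  have hne : NeZero (w ^ 2) := ⟨hw0.ne'⟩
  have hR : (2 : ZMod (w ^ 2)) ^ i * (l' : ZMod (w ^ 2)) ^ (2 * j + 1) * (B : ZMod (w ^ 2)) ^ N =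
      ((c : ZMod (w ^ 2)) ^ (2 * j)) ^ N := by
    have h0 : ((w ^ 2 : ℕ) : ZMod (w ^ 2)) = 0 := ZMod.natCast_self _
    have h2 := congrArg (Nat.cast : ℕ → ZMod (w ^ 2)) key
    push_cast at h2 h0
    rw [h0, zero_mul, add_zero] at h2
    exact h2
  have h2u : IsUnit (2 : ZMod (w ^ 2)) := isUnit_two_zmod hw.pow
  have hBu : IsUnit (B : ZMod (w ^ 2)) :=
    (ZMod.isUnit_iff_coprime B _).2 (Nat.Coprime.pow_right 2 hB)
  have hlu : IsUnit (l' : ZMod (w ^ 2)) :=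
    (ZMod.isUnit_iff_coprime l' _).2 (Nat.Coprime.pow_right 2 hlw)
  have hcu : IsUnit ((c : ZMod (w ^ 2)) ^ (2 * j)) := by
    have h4 : IsUnit (((c : ZMod (w ^ 2)) ^ (2 * j)) ^ N) := by
      rw [← hR]
      exact ((h2u.pow _).mul (hlu.pow _)).mul (hBu.pow _)
    exact (isUnit_pow_iff hN0).1 h4
  obtain ⟨g', hg'⟩ := h2u
  obtain ⟨b', hb'⟩ := hBu
  obtain ⟨l₁, hl₁⟩ := hlu
  obtain ⟨δ, hδ⟩ := hcu
  have hR2 : g' ^ i * l₁ ^ (2 * j + 1) * b' ^ N = δ ^ N := by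
    ext
    push_cast
    rw [hg', hb', hl₁, hδ]
    exact hR
  obtain ⟨t, ht⟩ := unit_sq h.hN h2i hR2
  refine ⟨(t : ZMod (w ^ 2)).val, ?_⟩
  rw [← ZMod.natCast_eq_natCast_iff]
  push_cast
  rw [ZMod.natCast_zmod_val, ← Units.val_pow_eq_pow_val, ht, Units.val_mul,
    Units.val_pow_eq_pow_val, hg', hl₁]

end

/-- an `N`-th power that is a unit has `q - 1`-th power one modulo `q ^ (e + 1)` -/
theorem unit_one {q e N : ℕ} (hq : q.Prime) (hqe : q ^ e ∣ N) (u : (ZMod (q ^ (e + 1)))ˣ) :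
    (u ^ N) ^ (q - 1) = 1 := by
  have hne : NeZero (q ^ (e + 1)) := ⟨(pow_pos hq.pos _).ne'⟩
  have htot : u ^ Nat.totient (q ^ (e + 1)) = 1 := ZMod.pow_totient u
  rw [Nat.totient_prime_pow_succ hq] at htot
  obtain ⟨k, hk⟩ := hqe
  rw [← pow_mul, hk]
  have : q ^ e * k * (q - 1) = q ^ e * (q - 1) * k := by ring
  rw [this, pow_mul, htot, one_pow]

theorem one_sub_pow {R : Type*} [CommRing R] {ν : R} (h : ν ^ 2 = 0) (k : ℕ) :
    (1 - ν) ^ k = 1 - k * ν := by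
  induction k with
  | zero => simp
  | succ k ih =>
    rw [pow_succ, ih]
    push_cast
    linear_combination (k : R) * h

/-- `(N - 1) ^ (q - 1) ≡ N + 1` modulo `q ^ (e + 1)` -/
theorem pred_pow {q e m N : ℕ} (hq : q.Prime) (he : 1 ≤ e) (hN : N = 2 * m + 1)
    (hqe : q ^ e ∣ N) : ((2 * m : ℕ) : ZMod (q ^ (e + 1))) ^ (q - 1) = (N : ZMod (q ^ (e + 1))) + 1 := by
  have hqo : Odd q := by
    apply Odd.of_dvd_nat (n := N) ⟨m, hN⟩
    exact (dvd_pow_self q (by omega)).trans hqe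
  obtain ⟨i, hi⟩ := hqo
  have hq1 : q - 1 = 2 * i := by omega
  obtain ⟨k, hk⟩ := hqe
  set ν : ZMod (q ^ (e + 1)) := (N : ZMod (q ^ (e + 1))) with hν
  have h0 : ((q ^ (e + 1) : ℕ) : ZMod (q ^ (e + 1))) = 0 := ZMod.natCast_self _
  have hqν : (q : ZMod (q ^ (e + 1))) * ν = 0 := by
    rw [hν, hk]
    have : ((q : ℕ) : ZMod (q ^ (e + 1))) * ((q ^ e * k : ℕ) : ZMod (q ^ (e + 1))) =
        ((q ^ (e + 1) : ℕ) : ZMod (q ^ (e + 1))) * k := by
      push_cast; ring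
    rw [this, h0, zero_mul]
  have hν2 : ν ^ 2 = 0 := by
    obtain ⟨f, rfl⟩ : ∃ f, e = f + 1 := ⟨e - 1, by omega⟩
    have : ν ^ 2 = ((q : ZMod (q ^ (f + 1 + 1))) * ν) * (q ^ f * k) := by
      have h2 : ν = q ^ (f + 1) * k := by rw [hν, hk]; push_cast; ring
      conv_lhs => rw [pow_two]
      conv_lhs => enter [2]; rw [h2]
      ring
    rw [this, hqν, zero_mul]
  have h1 : ((2 * m : ℕ) : ZMod (q ^ (e + 1))) = -(1 - ν) := by
    rw [hν, hN]; push_cast; ring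
  rw [h1, hq1, Even.neg_pow ⟨i, by ring⟩, one_sub_pow hν2, ← hq1, Nat.cast_sub hq.one_le,
    Nat.cast_one]
  linear_combination -hqν

/-- the consequences for primes dividing `N` -/
theorem prime_part {q e m N l l' c t s : ℕ} (hq : q.Prime) (he : 1 ≤ e) (hN : N = 2 * m + 1)
    (hqe : q ^ e ∣ N) (hl'm : l' ∣ m) (h : l * t ^ N ≡ m * l' [MOD q ^ (e + 1)])
    (h2 : s ^ N ≡ 2 ^ c * l' [MOD q ^ (e + 1)]) :
    (2 ^ (c + 1) * l) ^ (q - 1) ≡ N + 1 [MOD q ^ (e + 1)] ∧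
      (2 ^ c * l') ^ (q - 1) ≡ 1 [MOD q ^ (e + 1)] := by
  have hN0 : N ≠ 0 := by omega
  have hqN : q ∣ N := (dvd_pow_self q (by omega)).trans hqe
  have hqo : Odd q := Odd.of_dvd_nat (n := N) ⟨m, hN⟩ hqN
  have hqm : Nat.Coprime m (q ^ (e + 1)) := by
    apply Nat.Coprime.pow_right
    rw [Nat.coprime_comm, Nat.Prime.coprime_iff_not_dvd hq]
    intro h5
    have h7 : q ∣ 1 := by
      rw [hN] at hqN
      exact (Nat.dvd_add_right (h5.mul_left 2)).1 hqN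
    exact hq.one_lt.ne' (Nat.dvd_one.1 h7)
  have hne : NeZero (q ^ (e + 1)) := ⟨(pow_pos hq.pos _).ne'⟩
  have hmu : IsUnit (m : ZMod (q ^ (e + 1))) := (ZMod.isUnit_iff_coprime m _).2 hqm
  have hlu : IsUnit (l' : ZMod (q ^ (e + 1))) :=
    (ZMod.isUnit_iff_coprime l' _).2 (Nat.Coprime.coprime_dvd_left hl'm hqm)
  have h2u : IsUnit (2 : ZMod (q ^ (e + 1))) := isUnit_two_zmod hqo.pow
  have h1 := (ZMod.natCast_eq_natCast_iff _ _ _).2 h
  have h3 := (ZMod.natCast_eq_natCast_iff _ _ _).2 h2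
  push_cast at h1 h3
  have hone : ∀ r : ZMod (q ^ (e + 1)), IsUnit (r ^ N) → (r ^ N) ^ (q - 1) = 1 := by
    intro r hr
    obtain ⟨τ, hτ⟩ := (isUnit_pow_iff hN0).1 hr
    rw [← hτ, ← Units.val_pow_eq_pow_val, ← Units.val_pow_eq_pow_val, unit_one hq hqe,
      Units.val_one]
  have e1 : ((t : ZMod (q ^ (e + 1))) ^ N) ^ (q - 1) = 1 := by
    apply hone
    have h4 : IsUnit ((l : ZMod (q ^ (e + 1))) * (t : ZMod (q ^ (e + 1))) ^ N) := by
      rw [h1]; exact hmu.mul hlu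
    exact isUnit_of_mul_isUnit_right h4
  have e2 : ((2 : ZMod (q ^ (e + 1))) ^ c * l') ^ (q - 1) = 1 := by
    rw [← h3]
    apply hone
    rw [h3]
    exact (h2u.pow c).mul hlu
  have e3 := pred_pow hq he hN hqe
  constructor
  · rw [← ZMod.natCast_eq_natCast_iff]
    push_cast at e3 ⊢
    have e4 : ((2 : ZMod (q ^ (e + 1))) ^ (c + 1) * l) ^ (q - 1) *
        ((t : ZMod (q ^ (e + 1))) ^ N) ^ (q - 1) =
        (2 * m) ^ (q - 1) * (2 ^ c * l') ^ (q - 1) := by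
      rw [← mul_pow, ← mul_pow, mul_assoc, h1]
      congr 1
      ring
    rw [e1, e2, mul_one, mul_one, e3] at e4
    exact e4
  · rw [← ZMod.natCast_eq_natCast_iff]
    push_cast
    exact e2

/-- the conclusion for `e` maximal -/
theorem three_of {q e N m l' c : ℕ} (hq : q.Prime) (he : 1 ≤ e) (hN : N = 2 * m + 1)
    (hqe : q ^ e ∣ N) (hmax : ¬ q ^ (e + 1) ∣ N) (hc : c = 3 ∨ c = 6)
    (h1 : (2 ^ (c + 1) * 1) ^ (q - 1) ≡ N + 1 [MOD q ^ (e + 1)])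
    (h2 : (2 ^ c * l') ^ (q - 1) ≡ 1 [MOD q ^ (e + 1)]) (hl : l' = 1 ∨ l' = m) :
    q = 3 ∧ N % 9 = 3 := by
  have hqN : q ∣ N := (dvd_pow_self q (by omega)).trans hqe
  have hqo : Odd q := Odd.of_dvd_nat (n := N) ⟨m, hN⟩ hqN
  have e3 := pred_pow hq he hN hqe
  have e1 := (ZMod.natCast_eq_natCast_iff _ _ _).2 h1
  have e2 := (ZMod.natCast_eq_natCast_iff _ _ _).2 h2
  push_cast at e1 e2 e3
  rw [mul_one] at e1
  set X : ZMod (q ^ (e + 1)) := 2 ^ (q - 1) with hX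
  have e1' : X ^ (c + 1) = N + 1 := by
    rw [← e1, hX, ← pow_mul, ← pow_mul, mul_comm]
  have hX2 : X ^ (2 * c) = 1 := by
    rcases hl with rfl | rfl
    · have : X ^ c = 1 := by
        rw [Nat.cast_one, mul_one] at e2
        rw [← e2, hX, ← pow_mul, ← pow_mul, mul_comm]
      rw [mul_comm, pow_mul, this, one_pow]
    · rw [mul_pow] at e2 e3
      have h5 : X ^ c = (2 ^ c) ^ (q - 1) := by rw [hX, ← pow_mul, ← pow_mul, mul_comm]
      rw [← h5] at e2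
      have h6 : X ^ c = X ^ (c - 1) * X := by
        rw [← pow_succ]; congr 1; omega
      have h7 : X ^ (c - 1) * X ^ (c + 1) = 1 := by
        rw [e1', ← e3, ← hX, ← e2, h6]
        ring
      rw [← h7, ← pow_add]
      congr 1
      omega
  have h3 : ((N : ZMod (q ^ (e + 1))) + 1) ^ 12 = 1 := by
    rw [← e1', ← pow_mul]
    rcases hc with rfl | rfl
    · rw [show (3 + 1) * 12 = (2 * 3) * 8 by norm_num, pow_mul, hX2, one_pow]
    · rw [show (6 + 1) * 12 = (2 * 6) * 7 by norm_num, pow_mul, hX2, one_pow]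
  have hν2 : (N : ZMod (q ^ (e + 1))) ^ 2 = 0 := by
    have h8 : q ^ (e + 1) ∣ N ^ 2 := by
      have h8 : q ^ (e + 1) ∣ (q ^ e) ^ 2 := by
        rw [← pow_mul]
        exact pow_dvd_pow q (by omega)
      exact h8.trans (pow_dvd_pow_of_dvd hqe 2)
    have := (ZMod.natCast_eq_zero_iff (N ^ 2) (q ^ (e + 1))).2 h8
    push_cast at this
    exact this
  have h4 : (12 : ZMod (q ^ (e + 1))) * N = 0 := by
    have h5 := one_sub_pow (ν := -(N : ZMod (q ^ (e + 1)))) (by rw [neg_pow_two, hν2]) 12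
    rw [sub_neg_eq_add, add_comm (1 : ZMod (q ^ (e + 1))) (N : ZMod (q ^ (e + 1))), h3] at h5
    push_cast at h5
    linear_combination -h5
  have h5 : q ^ (e + 1) ∣ 12 * N := by
    rw [← ZMod.natCast_eq_zero_iff]
    push_cast
    exact h4
  have hq3 : q = 3 := by
    by_contra hne
    apply hmax
    have hq2 : q ≠ 2 := by
      rintro rfl
      exact absurd hqo (by decide)
    have h6 : Nat.Coprime q 12 := by
      rw [show 12 = 2 ^ 2 * 3 by norm_num]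
      exact Nat.Coprime.mul_right
        (Nat.Coprime.pow_right 2 ((Nat.coprime_primes hq Nat.prime_two).2 hq2))
        ((Nat.coprime_primes hq Nat.prime_three).2 hne)
    exact (Nat.Coprime.pow_left _ h6).dvd_of_dvd_mul_left h5
  subst hq3
  refine ⟨rfl, ?_⟩
  have h6 : (2 ^ (c + 1) * 1) ^ (3 - 1) ≡ N + 1 [MOD 3 ^ 2] := h1.of_dvd (pow_dvd_pow 3 (by omega))
  rcases hc with rfl | rfl
  · have h7 : (2 ^ (3 + 1) * 1) ^ (3 - 1) % 9 = (N + 1) % 9 := h6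
    omega
  · have h7 : (2 ^ (6 + 1) * 1) ^ (3 - 1) % 9 = (N + 1) % 9 := h6
    omega

section

variable {m N j z e g a b α β Ta Tb : ℕ}

/-- `E β l'` is an `N`-th power -/
theorem Cfg.power (h : Cfg m N j z e g a b α β Ta Tb) {l' B E f : ℕ} (hTb : Tb = l' * B ^ N)
    (hcB : Nat.Coprime B (b * (a * Ta))) (hl' : ∀ p, p.Prime → p ∣ l' → p ∣ b)
    (hEf : E * f = e ^ 2) (hEf1 : Nat.Coprime E f) (hE : Nat.Coprime E (B * (α * Ta)))
    (hf : Nat.Coprime f (β * l')) (hβα : Nat.Coprime β α) : ∃ c, E * β * l' = c ^ N := by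
  have hαa : α ∣ a := by rw [h.ha]; exact Dvd.intro_left _ rfl
  have hβb : β ∣ b := by rw [h.hb]; exact Dvd.intro_left _ rfl
  have hlTb : l' ∣ Tb := by rw [hTb]; exact Dvd.intro _ rfl
  have hBb : Nat.Coprime B b := Nat.Coprime.coprime_dvd_right (Dvd.intro _ rfl) hcB
  have hBl : Nat.Coprime B l' := by
    rw [Nat.coprime_iff_gcd_eq_one]
    by_contra hne
    obtain ⟨p, hp, hpd⟩ := Nat.exists_prime_and_dvd hne
    have h1 : p ∣ Nat.gcd B b :=
      Nat.dvd_gcd (hpd.trans (Nat.gcd_dvd_left _ _)) (hl' p hp (hpd.trans (Nat.gcd_dvd_right _ _)))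
    rw [hBb] at h1
    exact hp.one_lt.ne' (Nat.dvd_one.1 h1)
  have hlaT : Nat.Coprime l' (a * Ta) := Nat.Coprime.coprime_dvd_left hlTb h.copb
  have hlαT : Nat.Coprime l' (α * Ta) :=
    Nat.Coprime.coprime_dvd_right (Nat.mul_dvd_mul_right hαa Ta) hlaT
  have hβT : Nat.Coprime β Ta :=
    (Nat.Coprime.coprime_dvd_right (hβb.trans (Dvd.intro _ rfl)) h.copa).symm
  have hβB : Nat.Coprime β B := (Nat.Coprime.coprime_dvd_right hβb hBb).symm
  have h1 : Nat.Coprime (β * l') (B * (α * Ta)) :=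
    Nat.Coprime.mul_right (Nat.Coprime.mul_left hβB hBl.symm)
      (Nat.Coprime.mul_left (Nat.Coprime.mul_right hβα hβT) hlαT)
  have h2 : Nat.Coprime (E * (β * l')) (f * (B * (α * Ta))) :=
    Nat.Coprime.mul_left (Nat.Coprime.mul_right hEf1 hE) (Nat.Coprime.mul_right hf.symm h1)
  have h3 : Nat.Coprime (E * (β * l')) (f * (B ^ N * (α * Ta))) := by
    have hEB : Nat.Coprime (E * (β * l')) f :=
      Nat.Coprime.coprime_dvd_right (Dvd.intro _ rfl) h2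
    have hB' : Nat.Coprime (E * (β * l')) B :=
      Nat.Coprime.coprime_dvd_right ⟨f * (α * Ta), by ring⟩ h2
    have hα' : Nat.Coprime (E * (β * l')) (α * Ta) :=
      Nat.Coprime.coprime_dvd_right ⟨f * B, by ring⟩ h2
    exact Nat.Coprime.mul_right hEB (Nat.Coprime.mul_right (Nat.Coprime.pow_right N hB') hα')
  obtain ⟨c, hc⟩ := nat_pow_of_mul (c := z) (k := N) h3 (by
    rw [← h.prod, h.ha, h.hb, hTb]
    calc E * (β * l') * (f * (B ^ N * (α * Ta))) = (E * f) * (β * l' * (B ^ N * (α * Ta))) := by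
          ring
      _ = e ^ 2 * (β * l' * (B ^ N * (α * Ta))) := by rw [hEf]
      _ = _ := by ring)
  exact ⟨c, by rw [mul_assoc, hc]⟩

theorem Cfg.full (h : Cfg m N j z e g a b α β Ta Tb) (hmod : m * Tb ≡ Ta [MOD a ^ 2])
    {k l k' l' E f i s c : ℕ} (hkl : m = k * l)
    (hk : Nat.Coprime k a) (hl : ∀ p, p.Prime → p ∣ l → p ∣ a) (hkl' : m = k' * l')
    (hk' : Nat.Coprime k' b) (hl' : ∀ p, p.Prime → p ∣ l' → p ∣ b)
    (hEf : E * f = e ^ 2) (hEf1 : Nat.Coprime E f)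
    (hE : ∀ B, B ∣ Tb → Nat.Coprime E (B * (α * Ta)))
    (hf : Nat.Coprime f (β * l')) (hβα : Nat.Coprime β α)
    (hi : g * E ^ (2 * j) = 2 ^ i) (h2i : 2 * i + c = s * N)
    (hodd : ∀ w, Odd w → w ∣ a → w ∣ α) :
    (∃ t : ℕ, l * t ^ N ≡ m * l' [MOD a ^ 2]) ∧
      (∀ w, Odd w → w ∣ a → ∃ t : ℕ, t ^ N ≡ 2 ^ c * l' [MOD w ^ 2]) ∧
      ∀ q e, q.Prime → 1 ≤ e → q ^ e ∣ N → q ∣ a →
        (2 ^ (c + 1) * l) ^ (q - 1) ≡ N + 1 [MOD q ^ (e + 1)] ∧
          (2 ^ c * l') ^ (q - 1) ≡ 1 [MOD q ^ (e + 1)] := by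
  have hN0 : N ≠ 0 := by have := h.hN; omega
  have hN2 : N = 2 * m + 1 := by have := h.hm; have := h.hN; omega
  have h1 := h.half_residue hmod hkl hk hl hkl' hk' hl'
  obtain ⟨B, hTb, hcB⟩ := h.swap.Ta_part hkl' hk' hl'
  have hBTb : B ∣ Tb := by rw [hTb]; exact (dvd_pow_self B hN0).mul_left _
  obtain ⟨c₀, hc₀⟩ := h.power hTb hcB hl' hEf hEf1 (hE B hBTb) hf hβα
  have hBa : Nat.Coprime B a := Nat.Coprime.coprime_dvd_right ⟨b * Ta, by ring⟩ hcB
  have hla : Nat.Coprime l' a :=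
    Nat.Coprime.coprime_dvd_left (by rw [hTb]; exact Dvd.intro _ rfl)
      (Nat.Coprime.coprime_dvd_right (Dvd.intro _ rfl) h.copb)
  have h2 : ∀ w, Odd w → w ∣ a → ∃ t : ℕ, t ^ N ≡ 2 ^ c * l' [MOD w ^ 2] := by
    intro w hw hwa
    exact h.side_residue hTb (Nat.Coprime.coprime_dvd_right hwa hBa) hc₀ hi h2i hw
      (hodd w hw hwa) (Nat.Coprime.coprime_dvd_right hwa hla)
  refine ⟨h1, h2, fun q e hq he hqe hqa => ?_⟩
  have hqN : q ∣ N := (dvd_pow_self q (by omega)).trans hqe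
  have hqo : Odd q := Odd.of_dvd_nat (n := N) ⟨m, hN2⟩ hqN
  have hqb : ¬ q ∣ b := by
    intro h3
    have h4 := h.gcdab q hq hqa h3
    subst h4
    exact absurd hqo (by decide)
  have hqm : Nat.Coprime (q ^ N) m := by
    apply Nat.Coprime.pow_left
    rw [Nat.Prime.coprime_iff_not_dvd hq]
    intro h5
    have h7 : q ∣ 1 := by
      rw [hN2] at hqN
      exact (Nat.dvd_add_right (h5.mul_left 2)).1 hqN
    exact hq.one_lt.ne' (Nat.dvd_one.1 h7)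
  have h5 : q ^ N ∣ a := hqm.dvd_of_dvd_mul_right (h.low hq hqa hqb)
  have h6 : e + 1 ≤ N := by
    have h7 : q ^ e ≤ N := Nat.le_of_dvd (by omega) hqe
    have h8 : e < q ^ e := Nat.lt_pow_self hq.one_lt
    omega
  have h7 : q ^ (e + 1) ∣ a := (pow_dvd_pow q h6).trans h5
  obtain ⟨t, ht⟩ := h1
  obtain ⟨s₁, hs₁⟩ := h2 (q ^ (e + 1)) hqo.pow h7
  exact prime_part hq he hN2 hqe ⟨k', by rw [hkl']; ring⟩
    (ht.of_dvd (h7.trans (dvd_pow_self a two_ne_zero)))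
    (hs₁.of_dvd (dvd_pow_self _ two_ne_zero))

end

/-- all residues for `u`, one of `x + y`, `x - y` -/
theorem sum_residue {m N j x y z u v k l k' l' c : ℕ} (hj : 1 ≤ j) (hm : m = 2 * j + 1)
    (hN : N = 4 * j + 3) (hy : 0 < y) (hz : 0 < z) (h : x ^ (2 * m) = y ^ (2 * m) + z ^ N)
    (hg : Nat.gcd (Nat.gcd x y) z = 1)
    (huv : (u = x + y ∧ v = x - y) ∨ (u = x - y ∧ v = x + y))
    (hkl : m = k * l) (hk : Nat.Coprime k u) (hl : ∀ p, p.Prime → p ∣ l → p ∣ u)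
    (hkl' : m = k' * l') (hk' : Nat.Coprime k' v) (hl' : ∀ p, p.Prime → p ∣ l' → p ∣ v)
    (hc : (Odd z ∧ c = 3) ∨ (Even z ∧ ¬ 4 ∣ u ∧ c = 6) ∨ (4 ∣ u ∧ c = 0)) :
    (∃ t : ℕ, l * t ^ N ≡ m * l' [MOD u ^ 2]) ∧
      (∀ w, Odd w → w ∣ u → ∃ t : ℕ, t ^ N ≡ 2 ^ c * l' [MOD w ^ 2]) ∧
      ∀ q e, q.Prime → 1 ≤ e → q ^ e ∣ N → q ∣ u →
        (2 ^ (c + 1) * l) ^ (q - 1) ≡ N + 1 [MOD q ^ (e + 1)] ∧
          (2 ^ c * l') ^ (q - 1) ≡ 1 [MOD q ^ (e + 1)] := by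
  have hmo : Odd m := ⟨j, hm⟩
  have hxy : y < x := y_lt_x hz h
  have hc' : Nat.Coprime x y := coprime_xy (by omega) hg h
  obtain ⟨Ta, Tb, q⟩ := quot_exists hmo hy hxy hc'
  obtain ⟨par1, par2⟩ := parity (by omega) (by omega) hc' h
  have cop : ∀ a b α β Ta Tb e g, Cfg m N j z e g a b α β Ta Tb → (Odd α ∨ Odd β) →
      Nat.Coprime β α := by
    intro a b α β Ta Tb e g hcf ho
    have hαa : α ∣ a := by rw [hcf.ha]; exact Dvd.intro_left _ rfl
    have hβb : β ∣ b := by rw [hcf.hb]; exact Dvd.intro_left _ rfl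
    rw [Nat.coprime_iff_gcd_eq_one]
    by_contra hne
    obtain ⟨p, hp, hpd⟩ := Nat.exists_prime_and_dvd hne
    have h1 : p ∣ β := hpd.trans (Nat.gcd_dvd_left _ _)
    have h2 : p ∣ α := hpd.trans (Nat.gcd_dvd_right _ _)
    have h3 := hcf.gcdab p hp (h2.trans hαa) (h1.trans hβb)
    subst h3
    rcases ho with ho | ho
    · exact (Nat.not_even_iff_odd.2 ho) (even_iff_two_dvd.2 h2)
    · exact (Nat.not_even_iff_odd.2 ho) (even_iff_two_dvd.2 h1)
  have oTa : Odd Ta := by rw [← Nat.not_even_iff_odd, even_iff_two_dvd]; exact q.odda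
  have oTb : Odd Tb := by rw [← Nat.not_even_iff_odd, even_iff_two_dvd]; exact q.oddb
  rcases Nat.even_or_odd z with hze | hzo
  · -- even `z`
    obtain ⟨hxo, hyo⟩ := par2 hze
    obtain ⟨α, hα⟩ : ∃ α, x + y = 2 * α := by
      obtain ⟨a, ha⟩ := hxo
      obtain ⟨b, hb⟩ := hyo
      exact ⟨a + b + 1, by omega⟩
    obtain ⟨β, hβ⟩ : ∃ β, x - y = 2 * β := by
      obtain ⟨a, ha⟩ := hxo
      obtain ⟨b, hb⟩ := hyo
      exact ⟨a - b, by omega⟩
    have hpar : Odd (α + β) := by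
      have : α + β = x := by omega
      rw [this]; exact hxo
    have hcf := cfg_even hj hm hN hy hxy hc' h q hα hβ
    have main : ∀ a b α β Ta Tb, Cfg m N j z 2 1 a b α β Ta Tb → Odd (α + β) → Odd Ta → Odd Tb →
        Nat.Coprime k a → (∀ p, p.Prime → p ∣ l → p ∣ a) → Nat.Coprime k' b →
        (∀ p, p.Prime → p ∣ l' → p ∣ b) → ((¬ 4 ∣ a ∧ c = 6) ∨ (4 ∣ a ∧ c = 0)) →
        (∃ t : ℕ, l * t ^ N ≡ m * l' [MOD a ^ 2]) ∧
        (∀ w, Odd w → w ∣ a → ∃ t : ℕ, t ^ N ≡ 2 ^ c * l' [MOD w ^ 2]) ∧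
        ∀ q e, q.Prime → 1 ≤ e → q ^ e ∣ N → q ∣ a →
        (2 ^ (c + 1) * l) ^ (q - 1) ≡ N + 1 [MOD q ^ (e + 1)] ∧
          (2 ^ c * l') ^ (q - 1) ≡ 1 [MOD q ^ (e + 1)] := by
      intro a b α β Ta Tb hcf hpar oTa oTb hk hl hk' hl' hc
      have hodd : ∀ w, Odd w → w ∣ a → w ∣ α := by
        intro w hw hwa
        rw [hcf.ha] at hwa
        exact (hw.coprime_two_right).dvd_of_dvd_mul_left hwa
      have hml : Odd l' := hmo.of_dvd_nat ⟨k', by rw [hkl']; ring⟩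
      rcases hc with ⟨h4, rfl⟩ | ⟨h4, rfl⟩
      · have hαo : Odd α := by
          rw [← Nat.not_even_iff_odd]
          rintro ⟨r, hr⟩
          exact h4 ⟨r, by rw [hcf.ha, hr]; ring⟩
        refine hcf.full hcf.mod_even (E := 4) (f := 1) (i := 4 * j) (s := 2) hkl hk hl hkl' hk' hl'
          (by norm_num) (Nat.coprime_one_right _) (fun B hB => ?_) (Nat.coprime_one_left _)
          (cop _ _ _ _ _ _ _ _ hcf (Or.inl hαo)) ?_ (by rw [hN]; ring) hodd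
        · rw [show 4 = 2 ^ 2 by norm_num]
          apply Nat.Coprime.pow_left
          rw [Nat.coprime_two_left]
          exact (oTb.of_dvd_nat hB).mul (hαo.mul oTa)
        · rw [one_mul, show 4 = 2 ^ 2 by norm_num, ← pow_mul]
          congr 1
          ring
      · have hβo : Odd β := by
          have hαe : Even α := by
            obtain ⟨r, hr⟩ := h4
            have := hcf.ha
            exact ⟨r, by omega⟩
          rw [Nat.odd_add] at hpar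
          rw [← Nat.not_even_iff_odd]
          intro hβe
          exact (Nat.not_even_iff_odd.2 (hpar.2 hβe)) hαe
        refine hcf.full hcf.mod_even (E := 1) (f := 4) (i := 0) (s := 0) hkl hk hl hkl' hk' hl'
          (by norm_num) (Nat.coprime_one_left _) (fun B hB => Nat.coprime_one_left _) ?_
          (cop _ _ _ _ _ _ _ _ hcf (Or.inr hβo)) (by simp) (by simp) hodd
        rw [show 4 = 2 ^ 2 by norm_num]
        apply Nat.Coprime.pow_left
        rw [Nat.coprime_two_left]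
        exact hβo.mul hml
    have hc2 : (¬ 4 ∣ u ∧ c = 6) ∨ (4 ∣ u ∧ c = 0) := by
      rcases hc with ⟨h1, -⟩ | ⟨-, h1, h2⟩ | ⟨h1, h2⟩
      · exact absurd hze (Nat.not_even_iff_odd.2 h1)
      · exact Or.inl ⟨h1, h2⟩
      · exact Or.inr ⟨h1, h2⟩
    rcases huv with ⟨rfl, rfl⟩ | ⟨rfl, rfl⟩
    · exact main _ _ _ _ _ _ hcf hpar oTa oTb hk hl hk' hl' hc2
    · exact main _ _ _ _ _ _ hcf.swap (by rw [add_comm]; exact hpar) oTb oTa hk hl hk' hl' hc2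
  · -- odd `z`
    have hao : Odd (x + y) := par1 hzo
    have hbo : Odd (x - y) := by
      rw [Nat.odd_iff] at hao ⊢
      omega
    have hcf := cfg_odd hj hm hN hy hxy hc' h q
    have huo : Odd u := by rcases huv with ⟨rfl, rfl⟩ | ⟨rfl, rfl⟩ <;> assumption
    have hc3 : c = 3 := by
      rcases hc with ⟨-, h1⟩ | ⟨h1, -⟩ | ⟨h1, -⟩
      · exact h1
      · exact absurd h1 (Nat.not_even_iff_odd.2 hzo)
      · exfalso
        rw [Nat.odd_iff] at huo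
        omega
    subst hc3
    have main : ∀ a b Ta Tb, Cfg m N j z 1 (4 ^ j) a b a b Ta Tb → Odd a → Odd b →
        Nat.Coprime k a → (∀ p, p.Prime → p ∣ l → p ∣ a) → Nat.Coprime k' b →
        (∀ p, p.Prime → p ∣ l' → p ∣ b) →
        (∃ t : ℕ, l * t ^ N ≡ m * l' [MOD a ^ 2]) ∧
        (∀ w, Odd w → w ∣ a → ∃ t : ℕ, t ^ N ≡ 2 ^ 3 * l' [MOD w ^ 2]) ∧
        ∀ q e, q.Prime → 1 ≤ e → q ^ e ∣ N → q ∣ a →
        (2 ^ (3 + 1) * l) ^ (q - 1) ≡ N + 1 [MOD q ^ (e + 1)] ∧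
          (2 ^ 3 * l') ^ (q - 1) ≡ 1 [MOD q ^ (e + 1)] := by
      intro a b Ta Tb hcf ha hb hk hl hk' hl'
      refine hcf.full (hcf.mod_odd ha) (E := 1) (f := 1) (i := 2 * j) (s := 1) hkl hk hl hkl' hk'
        hl' (by norm_num) (Nat.coprime_one_left _) (fun B hB => Nat.coprime_one_left _)
        (Nat.coprime_one_left _) (cop _ _ _ _ _ _ _ _ hcf (Or.inl ha)) ?_ (by rw [hN]; ring)
        (fun w _ hw => hw)
      rw [one_pow, mul_one, pow_mul]
      norm_num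
    rcases huv with ⟨rfl, rfl⟩ | ⟨rfl, rfl⟩
    · exact main _ _ _ _ hcf hao hbo hk hl hk' hl'
    · exact main _ _ _ _ hcf.swap hbo hao hk hl hk' hl'

end Pool.Agent.H27.BN
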